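import Pool.Agent.Y167.Cartan.Comm

/-! # A connected complex Lie group with abelian Lie algebra is commutative -/

set_option autoImplicit false
set_option linter.unusedSectionVars false

open scoped Manifold ContDiff Topology
open Set Filter Pool.Agent.H194R3.Cartan Pool.Agent.W490.Flat VectorField

namespace Pool.Agent.Y167.Cartan

section

variable {V : Type} [NormedAddCommGroup V] [NormedSpace ℂ V]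
  {𝔤 : Type} [NormedAddCommGroup 𝔤] [NormedSpace ℂ 𝔤]
  {G : Type} [TopologicalSpace G] [ChartedSpace 𝔤 G] [Group G] [LieGroup 𝓘(ℂ, 𝔤) ω G]

lemma contDiffAt_mc (c : V → G) (v₀ : V) (hc : ContMDiffAt 𝓘(ℂ, V) 𝓘(ℂ, 𝔤) ω c v₀) :
    ContDiffAt ℂ ω (mc 𝔤 c) v₀ := by
  set P : V × V → 𝔤 := fun p => phi (𝔤 := 𝔤) G ((c p.1)⁻¹ * c p.2) with hP
  have h1 : ContDiffAt ℂ ω P (v₀, v₀) := contDiffAt_twoV c v₀ hc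
  have h2 : ContDiffAt ℂ ω (fderiv ℂ P) (v₀, v₀) := h1.fderiv_right (by simp)
  have h3 : ContDiffAt ℂ ω (fun z => (fderiv ℂ P (z, z)).comp
      ((0 : V →L[ℂ] V).prod (ContinuousLinearMap.id ℂ V))) v₀ :=
    (ContDiffAt.comp v₀ (g := fderiv ℂ P) (f := fun z => (z, z)) h2
      (contDiffAt_id.prodMk contDiffAt_id)).clm_comp contDiffAt_const
  have h4 : ∀ᶠ z in 𝓝 v₀, mc 𝔤 c z = (fderiv ℂ P (z, z)).comp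
      ((0 : V →L[ℂ] V).prod (ContinuousLinearMap.id ℂ V)) := by
    have hcc : ContinuousAt (fun z : V => (z, z)) v₀ := by fun_prop
    filter_upwards [hcc.eventually (h1.eventually (by simp))] with z hz
    have h5 : HasFDerivAt P (fderiv ℂ P (z, z)) (z, z) :=
      (hz.differentiableAt (by simp)).hasFDerivAt
    have h6 : HasFDerivAt (fun w : V => (z, w))
        ((0 : V →L[ℂ] V).prod (ContinuousLinearMap.id ℂ V)) z :=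
      (hasFDerivAt_const z z).prodMk (hasFDerivAt_id z)
    exact (h5.comp z h6).fderiv
  exact h3.congr_of_eventuallyEq h4

end

section

variable {𝔤 : Type} [NormedAddCommGroup 𝔤] [NormedSpace ℂ 𝔤]
  (G : Type) [TopologicalSpace G] [ChartedSpace 𝔤 G] [Group G]

/-- the inverse of the chart at `1` -/
noncomputable def sy (x : 𝔤) : G := (extChartAt 𝓘(ℂ, 𝔤) (1 : G)).symm x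

/-- the domain of the inverse of the chart -/
def TT (𝔤 : Type) [NormedAddCommGroup 𝔤] [NormedSpace ℂ 𝔤]
    (G : Type) [TopologicalSpace G] [ChartedSpace 𝔤 G] [Group G] : Set 𝔤 :=
  (extChartAt 𝓘(ℂ, 𝔤) (1 : G)).target

/-- the left invariant fields in the chart -/
noncomputable def WW (v : LieAlg 𝔤 G) (x : 𝔤) : 𝔤 :=
  (mpullback 𝓘(ℂ, 𝔤) 𝓘(ℂ, 𝔤) (sy (𝔤 := 𝔤) G) (mulInvariantVectorField v) x : 𝔤)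

/-- the derivative of the chart -/
noncomputable def AA : LieAlg 𝔤 G →L[ℂ] 𝔤 :=
  (mfderiv 𝓘(ℂ, 𝔤) 𝓘(ℂ, 𝔤) (phi (𝔤 := 𝔤) G) (1 : G) : 𝔤 →L[ℂ] 𝔤)

variable {G} [LieGroup 𝓘(ℂ, 𝔤) ω G]

lemma contMDiffAt_sy {x : 𝔤} (hx : x ∈ TT 𝔤 G) :
    ContMDiffAt 𝓘(ℂ, 𝔤) 𝓘(ℂ, 𝔤) ω (sy (𝔤 := 𝔤) G) x := by
  have h4 : ContMDiffOn 𝓘(ℂ, 𝔤) 𝓘(ℂ, 𝔤) ω (extChartAt 𝓘(ℂ, 𝔤) (1 : G)).symm
    (extChartAt 𝓘(ℂ, 𝔤) (1 : G)).target := contMDiffOn_extChartAt_symm _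
  exact h4.contMDiffAt ((isOpen_extChartAt_target (1 : G)).mem_nhds hx)

lemma isInvertible_sy {x : 𝔤} (hx : x ∈ TT 𝔤 G) :
    (mfderiv 𝓘(ℂ, 𝔤) 𝓘(ℂ, 𝔤) (sy (𝔤 := 𝔤) G) x).IsInvertible := by
  have h := isInvertible_mfderivWithin_extChartAt_symm (I := 𝓘(ℂ, 𝔤)) (x := (1 : G)) hx
  rw [ModelWithCorners.range_eq_univ, mfderivWithin_univ] at h
  exact h

/-- the pulled back field is the invariant field -/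
lemma mfderiv_WW {x : 𝔤} (hx : x ∈ TT 𝔤 G) (v : LieAlg 𝔤 G) :
    (mfderiv 𝓘(ℂ, 𝔤) 𝓘(ℂ, 𝔤) (sy (𝔤 := 𝔤) G) x : 𝔤 →L[ℂ] 𝔤) (WW G v x : 𝔤) =
      (mulInvariantVectorField v (sy (𝔤 := 𝔤) G x) : 𝔤) :=
  ContinuousLinearMap.IsInvertible.self_apply_inverse (isInvertible_sy hx) _

lemma WW_surj {x : 𝔤} (hx : x ∈ TT 𝔤 G) (a : 𝔤) : ∃ v : LieAlg 𝔤 G, WW G v x = a := by
  have hL : ∀ g : G, MDifferentiable 𝓘(ℂ, 𝔤) 𝓘(ℂ, 𝔤) (fun x : G => g * x) := fun g =>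
    (contMDiff_mul_left (I := 𝓘(ℂ, 𝔤)) (n := ω)).mdifferentiable (by simp)
  set g : G := sy (𝔤 := 𝔤) G x with hg
  let b : 𝔤 := (mfderiv 𝓘(ℂ, 𝔤) 𝓘(ℂ, 𝔤) (sy (𝔤 := 𝔤) G) x : 𝔤 →L[ℂ] 𝔤) a
  let v : 𝔤 := (mfderiv 𝓘(ℂ, 𝔤) 𝓘(ℂ, 𝔤) (fun z : G => g⁻¹ * z) g : 𝔤 →L[ℂ] 𝔤) b
  have h1 : HasMFDerivAt 𝓘(ℂ, 𝔤) 𝓘(ℂ, 𝔤) ((fun z : G => g * z) ∘ (fun z : G => g⁻¹ * z)) g
      ((mfderiv 𝓘(ℂ, 𝔤) 𝓘(ℂ, 𝔤) (fun z : G => g * z) (g⁻¹ * g)).comp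
        (mfderiv 𝓘(ℂ, 𝔤) 𝓘(ℂ, 𝔤) (fun z : G => g⁻¹ * z) g)) :=
    HasMFDerivAt.comp g (hL g (g⁻¹ * g)).hasMFDerivAt (hL g⁻¹ g).hasMFDerivAt
  have h2 : ((fun z : G => g * z) ∘ (fun z : G => g⁻¹ * z)) = id := by
    ext z
    simp
  rw [h2] at h1
  have h3 := hasMFDerivAt_unique h1 (hasMFDerivAt_id g)
  have h4 : (mfderiv 𝓘(ℂ, 𝔤) 𝓘(ℂ, 𝔤) (fun z : G => g * z) (g⁻¹ * g) : 𝔤 →L[ℂ] 𝔤) v = b :=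
    congrArg (fun L : 𝔤 →L[ℂ] 𝔤 => L b) h3
  have h5 : ∀ (a a' : G), a = a' → ∀ z : 𝔤,
      (mfderiv 𝓘(ℂ, 𝔤) 𝓘(ℂ, 𝔤) (fun x : G => g * x) a : 𝔤 →L[ℂ] 𝔤) z =
      (mfderiv 𝓘(ℂ, 𝔤) 𝓘(ℂ, 𝔤) (fun x : G => g * x) a' : 𝔤 →L[ℂ] 𝔤) z := by
    rintro a _ rfl z; rfl
  have h6 : (mfderiv 𝓘(ℂ, 𝔤) 𝓘(ℂ, 𝔤) (fun z : G => g * z) 1 : 𝔤 →L[ℂ] 𝔤) v = b :=
    (h5 _ _ (inv_mul_cancel g) v).symm.trans h4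
  refine ⟨v, ?_⟩
  have h7 : WW G v x = (mfderiv 𝓘(ℂ, 𝔤) 𝓘(ℂ, 𝔤) (sy (𝔤 := 𝔤) G) x).inverse
      (mulInvariantVectorField v g) := rfl
  have h8 : mulInvariantVectorField v g = mfderiv 𝓘(ℂ, 𝔤) 𝓘(ℂ, 𝔤) (sy (𝔤 := 𝔤) G) x a := h6
  rw [h7, h8]
  exact ContinuousLinearMap.IsInvertible.inverse_apply_self (isInvertible_sy hx) _

/-- the Maurer-Cartan form is constant on invariant fields -/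
lemma mc_WW {x : 𝔤} (hx : x ∈ TT 𝔤 G) (v : LieAlg 𝔤 G) :
    mc 𝔤 (sy (𝔤 := 𝔤) G) x (WW G v x) = AA G v := by
  have hL : ∀ g : G, MDifferentiable 𝓘(ℂ, 𝔤) 𝓘(ℂ, 𝔤) (fun x : G => g * x) := fun g =>
    (contMDiff_mul_left (I := 𝓘(ℂ, 𝔤)) (n := ω)).mdifferentiable (by simp)
  set g : G := sy (𝔤 := 𝔤) G x with hg
  have hφ : ∀ z : G, z = 1 → MDifferentiableAt 𝓘(ℂ, 𝔤) 𝓘(ℂ, 𝔤) (phi (𝔤 := 𝔤) G) z := by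
    rintro z rfl
    exact contMDiffAt_phi.mdifferentiableAt (by simp)
  have h1 : HasMFDerivAt 𝓘(ℂ, 𝔤) 𝓘(ℂ, 𝔤) (sy (𝔤 := 𝔤) G) x
      (mfderiv 𝓘(ℂ, 𝔤) 𝓘(ℂ, 𝔤) (sy (𝔤 := 𝔤) G) x) :=
    ((contMDiffAt_sy hx).mdifferentiableAt (by simp)).hasMFDerivAt
  have h2 : HasMFDerivAt 𝓘(ℂ, 𝔤) 𝓘(ℂ, 𝔤) ((fun z : G => g⁻¹ * z) ∘ sy (𝔤 := 𝔤) G) x
      ((mfderiv 𝓘(ℂ, 𝔤) 𝓘(ℂ, 𝔤) (fun z : G => g⁻¹ * z) (sy (𝔤 := 𝔤) G x)).comp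
        (mfderiv 𝓘(ℂ, 𝔤) 𝓘(ℂ, 𝔤) (sy (𝔤 := 𝔤) G) x)) :=
    HasMFDerivAt.comp x (hL g⁻¹ _).hasMFDerivAt h1
  have h3 : HasMFDerivAt 𝓘(ℂ, 𝔤) 𝓘(ℂ, 𝔤)
      (phi (𝔤 := 𝔤) G ∘ ((fun z : G => g⁻¹ * z) ∘ sy (𝔤 := 𝔤) G)) x
      ((mfderiv 𝓘(ℂ, 𝔤) 𝓘(ℂ, 𝔤) (phi (𝔤 := 𝔤) G) (g⁻¹ * sy (𝔤 := 𝔤) G x)).comp
      ((mfderiv 𝓘(ℂ, 𝔤) 𝓘(ℂ, 𝔤) (fun z : G => g⁻¹ * z) (sy (𝔤 := 𝔤) G x)).comp
        (mfderiv 𝓘(ℂ, 𝔤) 𝓘(ℂ, 𝔤) (sy (𝔤 := 𝔤) G) x))) :=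
    HasMFDerivAt.comp x (hφ _ (inv_mul_cancel g)).hasMFDerivAt h2
  let D : 𝔤 →L[ℂ] 𝔤 :=
      ((mfderiv 𝓘(ℂ, 𝔤) 𝓘(ℂ, 𝔤) (phi (𝔤 := 𝔤) G) (g⁻¹ * sy (𝔤 := 𝔤) G x)).comp
      ((mfderiv 𝓘(ℂ, 𝔤) 𝓘(ℂ, 𝔤) (fun z : G => g⁻¹ * z) (sy (𝔤 := 𝔤) G x)).comp
        (mfderiv 𝓘(ℂ, 𝔤) 𝓘(ℂ, 𝔤) (sy (𝔤 := 𝔤) G) x)) : 𝔤 →L[ℂ] 𝔤)
  let Q : 𝔤 → 𝔤 := phi (𝔤 := 𝔤) G ∘ ((fun z : G => g⁻¹ * z) ∘ sy (𝔤 := 𝔤) G)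
  have h4a : HasFDerivAt Q D x := hasMFDerivAt_iff_hasFDerivAt.1 h3
  have h4 : mc 𝔤 (sy (𝔤 := 𝔤) G) x = D := h4a.fderiv
  -- the invariant field at `g` is moved to `1`
  have k1 : HasMFDerivAt 𝓘(ℂ, 𝔤) 𝓘(ℂ, 𝔤) ((fun z : G => g⁻¹ * z) ∘ (fun z : G => g * z)) 1
      ((mfderiv 𝓘(ℂ, 𝔤) 𝓘(ℂ, 𝔤) (fun z : G => g⁻¹ * z) (g * 1)).comp
        (mfderiv 𝓘(ℂ, 𝔤) 𝓘(ℂ, 𝔤) (fun z : G => g * z) 1)) :=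
    HasMFDerivAt.comp (1 : G) (hL g⁻¹ (g * 1)).hasMFDerivAt (hL g 1).hasMFDerivAt
  have k2 : ((fun z : G => g⁻¹ * z) ∘ (fun z : G => g * z)) = id := by
    ext z
    simp
  rw [k2] at k1
  have k3 := hasMFDerivAt_unique k1 (hasMFDerivAt_id 1)
  have k4 : (mfderiv 𝓘(ℂ, 𝔤) 𝓘(ℂ, 𝔤) (fun z : G => g⁻¹ * z) (g * 1) : 𝔤 →L[ℂ] 𝔤)
      (mulInvariantVectorField v g : 𝔤) = (v : 𝔤) := congrArg (fun L : 𝔤 →L[ℂ] 𝔤 => L v) k3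
  have k5 : ∀ (a a' : G), a = a' → ∀ z : 𝔤,
      (mfderiv 𝓘(ℂ, 𝔤) 𝓘(ℂ, 𝔤) (fun x : G => g⁻¹ * x) a : 𝔤 →L[ℂ] 𝔤) z =
      (mfderiv 𝓘(ℂ, 𝔤) 𝓘(ℂ, 𝔤) (fun x : G => g⁻¹ * x) a' : 𝔤 →L[ℂ] 𝔤) z := by
    rintro a _ rfl z; rfl
  have k6 : (mfderiv 𝓘(ℂ, 𝔤) 𝓘(ℂ, 𝔤) (fun z : G => g⁻¹ * z) g : 𝔤 →L[ℂ] 𝔤)
      (mulInvariantVectorField v g : 𝔤) = (v : 𝔤) := (k5 _ _ (mul_one g) _).symm.trans k4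
  have k7 : ∀ (a a' : G), a = a' → ∀ z : 𝔤,
      (mfderiv 𝓘(ℂ, 𝔤) 𝓘(ℂ, 𝔤) (phi (𝔤 := 𝔤) G) a : 𝔤 →L[ℂ] 𝔤) z =
      (mfderiv 𝓘(ℂ, 𝔤) 𝓘(ℂ, 𝔤) (phi (𝔤 := 𝔤) G) a' : 𝔤 →L[ℂ] 𝔤) z := by
    rintro a _ rfl z; rfl
  have h5 : mc 𝔤 (sy (𝔤 := 𝔤) G) x (WW G v x) =
      (mfderiv 𝓘(ℂ, 𝔤) 𝓘(ℂ, 𝔤) (phi (𝔤 := 𝔤) G) (g⁻¹ * g) : 𝔤 →L[ℂ] 𝔤)
      ((mfderiv 𝓘(ℂ, 𝔤) 𝓘(ℂ, 𝔤) (fun z : G => g⁻¹ * z) g : 𝔤 →L[ℂ] 𝔤)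
        ((mfderiv 𝓘(ℂ, 𝔤) 𝓘(ℂ, 𝔤) (sy (𝔤 := 𝔤) G) x : 𝔤 →L[ℂ] 𝔤) (WW G v x : 𝔤))) :=
    congrArg (fun L : 𝔤 →L[ℂ] 𝔤 => L (WW G v x)) h4
  rw [h5, mfderiv_WW hx]
  have h6 : (mfderiv 𝓘(ℂ, 𝔤) 𝓘(ℂ, 𝔤) (phi (𝔤 := 𝔤) G) (g⁻¹ * g) : 𝔤 →L[ℂ] 𝔤)
      ((mfderiv 𝓘(ℂ, 𝔤) 𝓘(ℂ, 𝔤) (fun z : G => g⁻¹ * z) g : 𝔤 →L[ℂ] 𝔤)
        (mulInvariantVectorField v g : 𝔤)) =
      (mfderiv 𝓘(ℂ, 𝔤) 𝓘(ℂ, 𝔤) (phi (𝔤 := 𝔤) G) (g⁻¹ * g) : 𝔤 →L[ℂ] 𝔤) (v : 𝔤) :=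
    congrArg _ k6
  exact h6.trans (k7 _ _ (inv_mul_cancel g) _)

lemma AA_injective : Function.Injective (AA (𝔤 := 𝔤) G) := by
  have h : (mfderiv 𝓘(ℂ, 𝔤) 𝓘(ℂ, 𝔤) (extChartAt 𝓘(ℂ, 𝔤) (1 : G)) (1 : G)).IsInvertible :=
    isInvertible_mfderiv_extChartAt (mem_extChartAt_source (1 : G))
  exact h.injective

lemma mc_injective {x : 𝔤} (hx : x ∈ TT 𝔤 G) :
    Function.Injective (mc 𝔤 (sy (𝔤 := 𝔤) G) x) := by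
  rw [injective_iff_map_eq_zero]
  intro a ha
  obtain ⟨v, rfl⟩ := WW_surj hx a
  rw [mc_WW hx] at ha
  have hv : v = 0 := AA_injective (𝔤 := 𝔤) (G := G) (ha.trans (map_zero _).symm)
  subst hv
  have h7 : WW G (0 : LieAlg 𝔤 G) x = (mfderiv 𝓘(ℂ, 𝔤) 𝓘(ℂ, 𝔤) (sy (𝔤 := 𝔤) G) x).inverse
      (mulInvariantVectorField 0 (sy (𝔤 := 𝔤) G x)) := rfl
  have h8 : mulInvariantVectorField (0 : LieAlg 𝔤 G) (sy (𝔤 := 𝔤) G x) = 0 := map_zero _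
  rw [h7, h8, map_zero]
  rfl

variable [CompleteSpace 𝔤]

lemma differentiableAt_WW {x : 𝔤} (hx : x ∈ TT 𝔤 G) (v : LieAlg 𝔤 G) :
    DifferentiableAt ℂ (WW G v) x := by
  have h1 := MDifferentiableAt.mpullback_vectorField (n := ω) (f := sy (𝔤 := 𝔤) G) (x₀ := x)
    (V := mulInvariantVectorField v) (mdifferentiableAt_mulInvariantVectorField v)
    (contMDiffAt_sy hx) (isInvertible_sy hx) (by simp)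
  have h2 := ((contMDiff_snd_tangentBundle_modelSpace (n := 1) 𝔤 𝓘(ℂ, 𝔤)).contMDiffAt.mdifferentiableAt
    one_ne_zero).comp x h1
  exact h2.differentiableAt

lemma lieBracket_WW {x : 𝔤} (hx : x ∈ TT 𝔤 G) (v w : LieAlg 𝔤 G) (h0 : ⁅v, w⁆ = 0) :
    lieBracket ℂ (WW G v) (WW G w) x = 0 := by
  have h1 : mpullback 𝓘(ℂ, 𝔤) 𝓘(ℂ, 𝔤) (sy (𝔤 := 𝔤) G)
      (mlieBracket 𝓘(ℂ, 𝔤) (mulInvariantVectorField v) (mulInvariantVectorField w)) x =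
      mlieBracket 𝓘(ℂ, 𝔤) (mpullback 𝓘(ℂ, 𝔤) 𝓘(ℂ, 𝔤) (sy (𝔤 := 𝔤) G)
        (mulInvariantVectorField v)) (mpullback 𝓘(ℂ, 𝔤) 𝓘(ℂ, 𝔤) (sy (𝔤 := 𝔤) G)
        (mulInvariantVectorField w)) x :=
    mpullback_mlieBracket (n := ω) (mdifferentiableAt_mulInvariantVectorField _)
      (mdifferentiableAt_mulInvariantVectorField _) (contMDiffAt_sy hx) (by simp)
  have h3 : mlieBracket 𝓘(ℂ, 𝔤) (mulInvariantVectorField v) (mulInvariantVectorField w) =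
      mulInvariantVectorField (⁅v, w⁆ : LieAlg 𝔤 G) := (mulInvariantVector_mlieBracket v w).symm
  rw [h3, h0] at h1
  have h4 : mpullback 𝓘(ℂ, 𝔤) 𝓘(ℂ, 𝔤) (sy (𝔤 := 𝔤) G)
      (mulInvariantVectorField (0 : LieAlg 𝔤 G)) x = 0 := by
    have h7 : mpullback 𝓘(ℂ, 𝔤) 𝓘(ℂ, 𝔤) (sy (𝔤 := 𝔤) G)
      (mulInvariantVectorField (0 : LieAlg 𝔤 G)) x =
      (mfderiv 𝓘(ℂ, 𝔤) 𝓘(ℂ, 𝔤) (sy (𝔤 := 𝔤) G) x).inverse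
      (mulInvariantVectorField 0 (sy (𝔤 := 𝔤) G x)) := rfl
    have h8 : mulInvariantVectorField (0 : LieAlg 𝔤 G) (sy (𝔤 := 𝔤) G x) = 0 := map_zero _
    rw [h7, h8, map_zero]
  rw [h4] at h1
  have h5 : ∀ (A B : (x : 𝔤) → TangentSpace 𝓘(ℂ, 𝔤) x) (x : 𝔤),
      mlieBracket (M := 𝔤) 𝓘(ℂ, 𝔤) A B x = lieBracket ℂ (A : 𝔤 → 𝔤) (B : 𝔤 → 𝔤) x := by
    intro A B x
    have h := mlieBracketWithin_eq_lieBracketWithin (V := A) (W := B) (s := univ)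
    rw [mlieBracketWithin_univ] at h
    rw [h]
    exact congrFun (lieBracketWithin_univ (𝕜 := ℂ) (V := (A : 𝔤 → 𝔤)) (W := (B : 𝔤 → 𝔤))) x
  exact (h5 _ _ x).symm.trans h1.symm

/-- the Maurer-Cartan form is closed -/
lemma closed {x : 𝔤} (hx : x ∈ TT 𝔤 G) (h0 : ∀ v w : LieAlg 𝔤 G, ⁅v, w⁆ = 0) (a b : 𝔤) :
    fderiv ℂ (mc 𝔤 (sy (𝔤 := 𝔤) G)) x a b = fderiv ℂ (mc 𝔤 (sy (𝔤 := 𝔤) G)) x b a := by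
  obtain ⟨v, rfl⟩ := WW_surj hx a
  obtain ⟨w, rfl⟩ := WW_surj hx b
  have hΩ : DifferentiableAt ℂ (mc 𝔤 (sy (𝔤 := 𝔤) G)) x :=
    (contDiffAt_mc _ x (contMDiffAt_sy hx)).differentiableAt (by simp)
  have hT : TT 𝔤 G ∈ 𝓝 x := (isOpen_extChartAt_target (1 : G)).mem_nhds hx
  have key : ∀ (u : LieAlg 𝔤 G) (z : 𝔤),
      fderiv ℂ (mc 𝔤 (sy (𝔤 := 𝔤) G)) x z (WW G u x) +
        mc 𝔤 (sy (𝔤 := 𝔤) G) x (fderiv ℂ (WW G u) x z) = 0 := by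
    intro u z
    have e1 := hΩ.hasFDerivAt.clm_apply (differentiableAt_WW hx u).hasFDerivAt
    have e2 : HasFDerivAt (fun y => mc 𝔤 (sy (𝔤 := 𝔤) G) y (WW G u y)) (0 : 𝔤 →L[ℂ] 𝔤) x := by
      refine (hasFDerivAt_const (AA G u) x).congr_of_eventuallyEq ?_
      filter_upwards [hT] with y hy
      exact mc_WW hy u
    have e3 := congrArg (fun L : 𝔤 →L[ℂ] 𝔤 => L z) (e1.unique e2)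
    simp at e3
    rw [← e3]
    abel
  have e1 := key w (WW G v x)
  have e2 := key v (WW G w x)
  have e3 := lieBracket_WW hx v w (h0 v w)
  rw [lieBracket_eq] at e3
  have e4 : fderiv ℂ (WW G w) x (WW G v x) = fderiv ℂ (WW G v) x (WW G w x) := sub_eq_zero.1 e3
  rw [e4] at e1
  exact add_right_cancel (e1.trans e2.symm)

end

end Pool.Agent.Y167.Cartan
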