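import Pool.Agent.Y167.Cartan.Abel

/-! # A connected complex Lie group with abelian Lie algebra is commutative: the end of the proof -/

set_option autoImplicit false
set_option linter.unusedSectionVars false

open scoped Manifold ContDiff Topology
open Set Filter Pool.Agent.H194R3.Cartan Pool.Agent.W490.Flat VectorField

namespace Pool.Agent.Y167.Cartan

/-- the Poincaré lemma on a ball, over `ℂ` -/
lemma primitive {E F : Type} [NormedAddCommGroup E] [NormedSpace ℂ E] [NormedAddCommGroup F]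
    [NormedSpace ℂ F] [CompleteSpace F] (x₀ : E) (r : ℝ) (Ω : E → E →L[ℂ] F)
    (hd : ∀ x ∈ Metric.ball x₀ r, DifferentiableAt ℂ Ω x)
    (hs : ∀ x ∈ Metric.ball x₀ r, ∀ a b, fderiv ℂ Ω x a b = fderiv ℂ Ω x b a) :
    ∃ f : E → F, ∀ x ∈ Metric.ball x₀ r, HasFDerivAt f (Ω x) x := by
  refine (convex_ball x₀ r).exists_forall_hasFDerivAt_of_fderiv_symmetric Metric.isOpen_ball
    (fun x hx => ((hd x hx).restrictScalars ℝ).differentiableWithinAt) (fun a ha x y => ?_)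
  have h : fderiv ℝ Ω a = (fderiv ℂ Ω a).restrictScalars ℝ := (hd a ha).fderiv_restrictScalars ℝ
  rw [h]
  exact hs a ha x y

variable {𝔤 : Type} [NormedAddCommGroup 𝔤] [NormedSpace ℂ 𝔤]
  {G : Type} [TopologicalSpace G] [ChartedSpace 𝔤 G] [Group G] [LieGroup 𝓘(ℂ, 𝔤) ω G]

lemma hasFDerivAt_mc_sy {x : 𝔤} (hx : x ∈ TT 𝔤 G) :
    HasFDerivAt (fun u => phi (𝔤 := 𝔤) G ((sy (𝔤 := 𝔤) G x)⁻¹ * sy (𝔤 := 𝔤) G u))
      (mc 𝔤 (sy (𝔤 := 𝔤) G) x) x := by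
  have h1 : ContDiffAt ℂ ω
      (fun p : 𝔤 × 𝔤 => phi (𝔤 := 𝔤) G ((sy (𝔤 := 𝔤) G p.1)⁻¹ * sy (𝔤 := 𝔤) G p.2)) (x, x) :=
    contDiffAt_twoV _ x (contMDiffAt_sy hx)
  have h2 : ContDiffAt ℂ ω (fun u : 𝔤 => (x, u)) x := contDiffAt_const.prodMk contDiffAt_id
  have h3 := ContDiffAt.comp x (g := fun p : 𝔤 × 𝔤 =>
    phi (𝔤 := 𝔤) G ((sy (𝔤 := 𝔤) G p.1)⁻¹ * sy (𝔤 := 𝔤) G p.2)) (f := fun u => (x, u)) h1 h2
  exact (h3.differentiableAt (by simp)).hasFDerivAt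

/-- A connected complex Lie group with abelian Lie algebra is commutative. -/
theorem commutative_of_brackets [FiniteDimensional ℂ 𝔤] [ConnectedSpace G]
    (h0 : ∀ v w : LieAlg 𝔤 G, ⁅v, w⁆ = 0) (a b : G) : a * b = b * a := by
  have : CompleteSpace 𝔤 := FiniteDimensional.complete ℂ 𝔤
  set x₀ : 𝔤 := extChartAt 𝓘(ℂ, 𝔤) (1 : G) 1 with hx₀def
  have hx₀ : x₀ ∈ TT 𝔤 G := mem_extChartAt_target (1 : G)
  have hsy : sy (𝔤 := 𝔤) G x₀ = 1 := extChartAt_to_inv (1 : G)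
  obtain ⟨r, hr, hball⟩ := Metric.isOpen_iff.1 (isOpen_extChartAt_target (I := 𝓘(ℂ, 𝔤)) (1 : G))
    x₀ hx₀
  set Ω : 𝔤 → 𝔤 →L[ℂ] 𝔤 := mc 𝔤 (sy (𝔤 := 𝔤) G) with hΩ
  have hΩd : ∀ x ∈ Metric.ball x₀ r, DifferentiableAt ℂ Ω x := fun x hx =>
    (contDiffAt_mc _ x (contMDiffAt_sy (hball hx))).differentiableAt (by simp)
  obtain ⟨lam, hlam⟩ := primitive x₀ r Ω hΩd (fun x hx a b => closed (hball hx) h0 a b)
  have hC : ∀ x ∈ Metric.ball x₀ r, ContDiffAt ℂ 1 lam x := by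
    intro x hx
    rw [contDiffAt_one_iff]
    exact ⟨Ω, Metric.ball x₀ r, Metric.isOpen_ball.mem_nhds hx,
      fun y hy => (hΩd y hy).continuousAt.continuousWithinAt, hlam⟩
  have hE : ∀ x ∈ Metric.ball x₀ r, ∃ e : 𝔤 ≃L[ℂ] 𝔤, (e : 𝔤 →L[ℂ] 𝔤) = Ω x := by
    intro x hx
    have hinj : Function.Injective (Ω x : 𝔤 →ₗ[ℂ] 𝔤) := mc_injective (hball hx)
    refine ⟨(LinearEquiv.ofInjectiveEndo (Ω x : 𝔤 →ₗ[ℂ] 𝔤) hinj).toContinuousLinearEquiv, ?_⟩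
    ext z
    rfl
  have hm : x₀ ∈ Metric.ball x₀ r := Metric.mem_ball_self hr
  obtain ⟨e₀, he₀⟩ := hE x₀ hm
  have hd0 : HasFDerivAt lam (e₀ : 𝔤 →L[ℂ] 𝔤) x₀ := by rw [he₀]; exact hlam x₀ hm
  set Φ := (hC x₀ hm).toOpenPartialHomeomorph lam hd0 one_ne_zero with hΦ
  have hΦc : ∀ x, Φ x = lam x := fun x => rfl
  have hsrc : x₀ ∈ Φ.source := (hC x₀ hm).mem_toOpenPartialHomeomorph_source hd0 one_ne_zero
  have htgt : lam x₀ ∈ Φ.target :=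
    (hC x₀ hm).image_mem_toOpenPartialHomeomorph_target hd0 one_ne_zero
  have hinv : Φ.symm (lam x₀) = x₀ := Φ.left_inv hsrc
  have hcontΨ : ContinuousAt (fun y : 𝔤 => Φ.symm (y + lam x₀)) 0 := by
    have h1 : ContinuousAt Φ.symm (0 + lam x₀) := by
      rw [zero_add]
      exact Φ.symm.continuousAt htgt
    exact ContinuousAt.comp (g := Φ.symm) (f := fun y : 𝔤 => y + lam x₀) h1 (by fun_prop)
  let U : Set 𝔤 := {y | y + lam x₀ ∈ Φ.target ∧ Φ.symm (y + lam x₀) ∈ Metric.ball x₀ r}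
  have hU : U ∈ 𝓝 (0 : 𝔤) := by
    refine inter_mem ?_ ?_
    · have h1 : ContinuousAt (fun y : 𝔤 => y + lam x₀) 0 := by fun_prop
      exact h1.preimage_mem_nhds (by rw [zero_add]; exact Φ.open_target.mem_nhds htgt)
    · exact hcontΨ.preimage_mem_nhds (by rw [zero_add, hinv]; exact Metric.ball_mem_nhds x₀ hr)
  have hder : ∀ y ∈ U, ∃ e : 𝔤 ≃L[ℂ] 𝔤, (e : 𝔤 →L[ℂ] 𝔤) = Ω (Φ.symm (y + lam x₀)) ∧
      HasFDerivAt (fun u : 𝔤 => Φ.symm (u + lam x₀)) (e.symm : 𝔤 →L[ℂ] 𝔤) y ∧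
      ContDiffAt ℂ 1 (fun u : 𝔤 => Φ.symm (u + lam x₀)) y := by
    intro y hy
    obtain ⟨e, he⟩ := hE _ hy.2
    have h1 : HasFDerivAt Φ (e : 𝔤 →L[ℂ] 𝔤) (Φ.symm (y + lam x₀)) := by
      rw [he]; exact hlam _ hy.2
    have h2 := Φ.hasFDerivAt_symm hy.1 h1
    have h3 : ContDiffAt ℂ 1 Φ.symm (y + lam x₀) := Φ.contDiffAt_symm hy.1 h1 (hC _ hy.2)
    refine ⟨e, he, ?_, ?_⟩
    · have h4 : HasFDerivAt (fun u : 𝔤 => u + lam x₀) (ContinuousLinearMap.id ℂ 𝔤) y :=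
        (hasFDerivAt_id y).add_const _
      have h5 := h2.comp y h4
      exact h5
    · exact ContDiffAt.comp y (g := Φ.symm) (f := fun u : 𝔤 => u + lam x₀) h3
        (contDiffAt_id.add contDiffAt_const)
  let c : 𝔤 → G := fun y => sy (𝔤 := 𝔤) G (Φ.symm (y + lam x₀))
  refine commutative_of_const c U hU ?_ (ContinuousLinearMap.id ℂ 𝔤) ?_ ?_ a b
  · intro y hy
    obtain ⟨e, he, h1, h2⟩ := hder y hy
    exact ContMDiffAt.comp y (g := sy (𝔤 := 𝔤) G) (f := fun u : 𝔤 => Φ.symm (u + lam x₀))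
      ((contMDiffAt_sy (hball hy.2)).of_le (by simp)) h2.contMDiffAt
  · intro y hy
    obtain ⟨e, he, h1, h2⟩ := hder y hy
    have h3 := hasFDerivAt_mc_sy (G := G) (hball hy.2)
    have h4 := HasFDerivAt.comp y (f := fun u : 𝔤 => Φ.symm (u + lam x₀)) h3 h1
    have h5 : mc 𝔤 c y = (Ω (Φ.symm (y + lam x₀))).comp (e.symm : 𝔤 →L[ℂ] 𝔤) := h4.fderiv
    rw [h5, ← he]
    ext z
    simp
  · intro ρ hρ
    have hc0 : c 0 = 1 := by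
      change sy (𝔤 := 𝔤) G (Φ.symm (0 + lam x₀)) = 1
      rw [zero_add, hinv, hsy]
    rw [hc0]
    have h1 : Φ.symm '' Metric.ball (lam x₀) ρ ∈ 𝓝 (Φ.symm (lam x₀)) :=
      Φ.symm.image_mem_nhds htgt (Metric.ball_mem_nhds _ hρ)
    rw [hinv] at h1
    have h2 : phi (𝔤 := 𝔤) G ⁻¹' (Φ.symm '' Metric.ball (lam x₀) ρ) ∈ 𝓝 (1 : G) :=
      (continuousAt_extChartAt (I := 𝓘(ℂ, 𝔤)) (1 : G)).preimage_mem_nhds h1
    filter_upwards [h2, extChartAt_source_mem_nhds (I := 𝓘(ℂ, 𝔤)) (1 : G)] with g hg1 hg2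
    obtain ⟨y, hy, hyg⟩ := hg1
    refine ⟨y - lam x₀, ?_, ?_⟩
    · rw [mem_ball_zero_iff]
      rwa [Metric.mem_ball, dist_eq_norm] at hy
    · change sy (𝔤 := 𝔤) G (Φ.symm (y - lam x₀ + lam x₀)) = g
      rw [sub_add_cancel, hyg]
      exact (extChartAt 𝓘(ℂ, 𝔤) (1 : G)).left_inv hg2

end Pool.Agent.Y167.Cartan
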