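import Pool.Agent.Y167.Cartan.Geom

/-! # A simply connected noncommutative complex Lie group in each dimension at least two -/

set_option autoImplicit false
set_option linter.unusedSectionVars false

open scoped Manifold ContDiff Topology
open Set Filter Pool.Agent.H194R3.Cartan

namespace Pool.Agent.Y167.Cartan

/-- Pairs `(t, b)` of a complex number and a vector of `ℂ^m` with the product
`(t, b) (t', b') = (t + t', b + e^t b')`. -/
def AffN (m : ℕ) : Type := ℂ × (Fin m → ℂ)

namespace AffN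

variable (m : ℕ)

noncomputable instance : TopologicalSpace (AffN m) :=
  inferInstanceAs (TopologicalSpace (ℂ × (Fin m → ℂ)))
instance : T2Space (AffN m) := inferInstanceAs (T2Space (ℂ × (Fin m → ℂ)))
instance : SecondCountableTopology (AffN m) :=
  inferInstanceAs (SecondCountableTopology (ℂ × (Fin m → ℂ)))
instance : ConnectedSpace (AffN m) := inferInstanceAs (ConnectedSpace (ℂ × (Fin m → ℂ)))
instance : SimplyConnectedSpace (AffN m) :=
  inferInstanceAs (SimplyConnectedSpace (ℂ × (Fin m → ℂ)))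
noncomputable instance : ChartedSpace (ℂ × (Fin m → ℂ)) (AffN m) :=
  inferInstanceAs (ChartedSpace (ℂ × (Fin m → ℂ)) (ℂ × (Fin m → ℂ)))

variable {m}

/-- the linear part -/
def t (p : AffN m) : ℂ := Prod.fst p
/-- the translation part -/
def b (p : AffN m) : Fin m → ℂ := Prod.snd p
/-- the element with given coordinates -/
def mk (t : ℂ) (b : Fin m → ℂ) : AffN m := (t, b)

@[ext] theorem ext {p q : AffN m} (h1 : p.t = q.t) (h2 : p.b = q.b) : p = q := Prod.ext h1 h2

@[simp] theorem mk_t (x : ℂ) (y : Fin m → ℂ) : (mk x y).t = x := rfl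
@[simp] theorem mk_b (x : ℂ) (y : Fin m → ℂ) : (mk x y).b = y := rfl

noncomputable instance : Group (AffN m) where
  mul p q := mk (p.t + q.t) (p.b + Complex.exp p.t • q.b)
  one := mk 0 0
  inv p := mk (-p.t) (-(Complex.exp (-p.t) • p.b))
  mul_assoc p q r := by
    apply ext
    · change p.t + q.t + r.t = p.t + (q.t + r.t); ring
    · change (p.b + Complex.exp p.t • q.b) + Complex.exp (p.t + q.t) • r.b =
        p.b + Complex.exp p.t • (q.b + Complex.exp q.t • r.b)
      rw [Complex.exp_add, smul_add, mul_smul, add_assoc]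
  one_mul p := by
    apply ext
    · change 0 + p.t = p.t; ring
    · change 0 + Complex.exp 0 • p.b = p.b; simp
  mul_one p := by
    apply ext
    · change p.t + 0 = p.t; ring
    · change p.b + Complex.exp p.t • 0 = p.b; simp
  inv_mul_cancel p := by
    apply ext
    · change -p.t + p.t = 0; ring
    · change -(Complex.exp (-p.t) • p.b) + Complex.exp (-p.t) • p.b = 0
      rw [neg_add_cancel]

instance : LieGroup 𝓘(ℂ, ℂ × (Fin m → ℂ)) ω (AffN m) where
  toIsManifold := inferInstanceAs (IsManifold 𝓘(ℂ, ℂ × (Fin m → ℂ)) ω (ℂ × (Fin m → ℂ)))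
  contMDiff_mul := by
    rw [← modelWithCornersSelf_prod]
    have h : ContDiff ℂ ω (fun p : (ℂ × (Fin m → ℂ)) × (ℂ × (Fin m → ℂ)) =>
        ((p.1.1 + p.2.1, p.1.2 + Complex.exp p.1.1 • p.2.2) : ℂ × (Fin m → ℂ))) := by
      fun_prop
    have h2 := h.contMDiff
    rw [← chartedSpaceSelf_prod] at h2
    exact h2
  contMDiff_inv := by
    have h : ContDiff ℂ ω (fun p : (ℂ × (Fin m → ℂ)) =>
        ((-p.1, -(Complex.exp (-p.1) • p.2)) : ℂ × (Fin m → ℂ))) := by
      fun_prop
    exact h.contMDiff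

/-- for `m ≥ 1` the group is not commutative -/
theorem not_commutative (hm : 1 ≤ m) : ∃ x y : AffN m, x * y ≠ y * x := by
  obtain ⟨k, rfl⟩ : ∃ k, m = k + 1 := ⟨m - 1, by omega⟩
  refine ⟨mk 1 0, mk 0 (fun _ => 1), fun h => ?_⟩
  have h1 : (mk (1 : ℂ) (0 : Fin (k + 1) → ℂ) * mk 0 (fun _ => 1)).b 0 =
      (mk (0 : ℂ) (fun _ : Fin (k + 1) => (1 : ℂ)) * mk 1 0).b 0 := by rw [h]
  have h2 : (0 : ℂ) + Complex.exp 1 * 1 = 1 + Complex.exp 0 * 0 := h1
  rw [zero_add, mul_one, mul_zero, add_zero] at h2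
  have h3 : Real.exp 1 = 1 := by
    have := congrArg Complex.re h2
    rw [show (1 : ℂ) = ((1 : ℝ) : ℂ) by simp, Complex.exp_ofReal_re] at this
    simpa using this
  have h4 := Real.add_one_lt_exp (x := 1) one_ne_zero
  linarith

end AffN

lemma finrank_aff (m : ℕ) : Module.finrank ℂ (ℂ × (Fin m → ℂ)) = m + 1 := by
  rw [Module.finrank_prod, Module.finrank_self, Module.finrank_fin_fun, add_comm]

end Pool.Agent.Y167.Cartan
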