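import Pool.Agent.Y167.Cartan.GX

/-! # The Lie algebra of a commutative complex Lie group is abelian -/

set_option autoImplicit false
set_option linter.unusedSectionVars false

open scoped Manifold ContDiff Topology
open Set Filter Pool.Agent.H194R3.Cartan Pool.Agent.W490.Flat VectorField

namespace Pool.Agent.Y167.Cartan

variable {𝔤 : Type} [NormedAddCommGroup 𝔤] [NormedSpace ℂ 𝔤]
  {G : Type} [TopologicalSpace G] [ChartedSpace 𝔤 G] [Group G] [LieGroup 𝓘(ℂ, 𝔤) ω G]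

/-- the derivative of the inversion at `1`, in the chart -/
lemma hasFDerivAt_inv_chart :
    HasFDerivAt (fun y => phi (𝔤 := 𝔤) G (((extChartAt 𝓘(ℂ, 𝔤) (1 : G)).symm y)⁻¹))
      (-ContinuousLinearMap.id ℂ 𝔤) (phi (𝔤 := 𝔤) G 1) := by
  set e := extChartAt 𝓘(ℂ, 𝔤) (1 : G) with he
  set x₁ : 𝔤 := phi (𝔤 := 𝔤) G 1 with hx₁
  have e4 : e.symm x₁ = 1 := phi_symm_one
  let Q : 𝔤 × 𝔤 → 𝔤 := fun p => phi (𝔤 := 𝔤) G (e.symm p.1 * (e.symm p.2)⁻¹)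
  have hQ : ContDiffAt ℂ ω Q (x₁, x₁) := by
    rw [← contMDiffAt_iff_contDiffAt]
    have e1 : ContMDiffAt 𝓘(ℂ, 𝔤 × 𝔤) 𝓘(ℂ, 𝔤) ω (fun p : 𝔤 × 𝔤 => e.symm p.1) (x₁, x₁) :=
      ContMDiffAt.comp (x₁, x₁) (g := e.symm) (f := Prod.fst) contMDiffAt_phi_symm
        contDiff_fst.contMDiff.contMDiffAt
    have e2 : ContMDiffAt 𝓘(ℂ, 𝔤 × 𝔤) 𝓘(ℂ, 𝔤) ω (fun p : 𝔤 × 𝔤 => e.symm p.2) (x₁, x₁) :=
      ContMDiffAt.comp (x₁, x₁) (g := e.symm) (f := Prod.snd) contMDiffAt_phi_symm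
        contDiff_snd.contMDiff.contMDiffAt
    have e3 : ContMDiffAt 𝓘(ℂ, 𝔤 × 𝔤) 𝓘(ℂ, 𝔤) ω
        (fun p : 𝔤 × 𝔤 => e.symm p.1 * (e.symm p.2)⁻¹) (x₁, x₁) := e1.mul e2.inv
    refine ContMDiffAt.comp (x₁, x₁) (g := phi (𝔤 := 𝔤) G) ?_ e3
    simp only [e4, inv_one, mul_one]
    exact contMDiffAt_phi
  have hQd : HasFDerivAt Q (fderiv ℂ Q (x₁, x₁)) (x₁, x₁) :=
    (hQ.differentiableAt (by simp)).hasFDerivAt
  have hdiag : ∀ x : 𝔤, fderiv ℂ Q (x₁, x₁) (x, x) = 0 := by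
    intro x
    have h6 : HasFDerivAt (fun y : 𝔤 => (y, y))
        ((ContinuousLinearMap.id ℂ 𝔤).prod (ContinuousLinearMap.id ℂ 𝔤)) x₁ :=
      (hasFDerivAt_id x₁).prodMk (hasFDerivAt_id x₁)
    have h7 := HasFDerivAt.comp (g := Q) (f := fun y : 𝔤 => (y, y)) x₁ hQd h6
    have h8 : (Q ∘ fun y : 𝔤 => (y, y)) = fun _ => phi (𝔤 := 𝔤) G 1 := by
      ext y
      simp only [Q, Function.comp_apply, mul_inv_cancel]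
    rw [h8] at h7
    have h9 := h7.unique (hasFDerivAt_const _ _)
    exact congrArg (fun L : 𝔤 →L[ℂ] 𝔤 => L x) h9
  have hfst : ∀ x : 𝔤, fderiv ℂ Q (x₁, x₁) (x, 0) = x := by
    intro x
    have h6 : HasFDerivAt (fun y : 𝔤 => (y, x₁))
        ((ContinuousLinearMap.id ℂ 𝔤).prod (0 : 𝔤 →L[ℂ] 𝔤)) x₁ :=
      (hasFDerivAt_id x₁).prodMk (hasFDerivAt_const x₁ x₁)
    have h7 := HasFDerivAt.comp (g := Q) (f := fun y : 𝔤 => (y, x₁)) x₁ hQd h6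
    have h8 : (fun y => y) =ᶠ[𝓝 x₁] (Q ∘ fun y : 𝔤 => (y, x₁)) := by
      have ht : e.target ∈ 𝓝 x₁ := extChartAt_target_mem_nhds (1 : G)
      filter_upwards [ht] with y hy
      simp only [Q, Function.comp_apply, e4, inv_one, mul_one]
      exact (e.right_inv hy).symm
    have h9 := (h7.congr_of_eventuallyEq h8).unique (hasFDerivAt_id x₁)
    exact congrArg (fun L : 𝔤 →L[ℂ] 𝔤 => L x) h9
  have h6 : HasFDerivAt (fun y : 𝔤 => (x₁, y))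
      ((0 : 𝔤 →L[ℂ] 𝔤).prod (ContinuousLinearMap.id ℂ 𝔤)) x₁ :=
    (hasFDerivAt_const x₁ x₁).prodMk (hasFDerivAt_id x₁)
  have h7 := HasFDerivAt.comp (g := Q) (f := fun y : 𝔤 => (x₁, y)) x₁ hQd h6
  have h10 : (fderiv ℂ Q (x₁, x₁)).comp ((0 : 𝔤 →L[ℂ] 𝔤).prod (ContinuousLinearMap.id ℂ 𝔤)) =
      -ContinuousLinearMap.id ℂ 𝔤 := by
    ext x
    have h11 : fderiv ℂ Q (x₁, x₁) (0, x) = fderiv ℂ Q (x₁, x₁) (x, x) -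
        fderiv ℂ Q (x₁, x₁) (x, 0) := by
      rw [← map_sub]
      simp
    change fderiv ℂ Q (x₁, x₁) (0, x) = -x
    rw [h11, hdiag, hfst, zero_sub]
  rw [h10] at h7
  refine h7.congr_of_eventuallyEq ?_
  filter_upwards with y
  simp only [Q, Function.comp_apply, e4, one_mul]

lemma hasMFDerivAt_inv_one :
    HasMFDerivAt 𝓘(ℂ, 𝔤) 𝓘(ℂ, 𝔤) (fun x : G => x⁻¹) 1 (-ContinuousLinearMap.id ℂ 𝔤) := by
  have : IsTopologicalGroup G := topologicalGroup_of_lieGroup 𝓘(ℂ, 𝔤) ω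
  refine ⟨continuous_inv.continuousAt, ?_⟩
  have h := hasFDerivAt_inv_chart (𝔤 := 𝔤) (G := G)
  simp only [writtenInExtChartAt, inv_one, modelWithCornersSelf_coe, range_id]
  exact h.hasFDerivWithinAt

/-- The Lie algebra of a commutative complex Lie group is abelian. -/
theorem bracket_eq_zero_of_comm [CompleteSpace 𝔤] (hcomm : ∀ a b : G, a * b = b * a)
    (v w : LieAlg 𝔤 G) : ⁅v, w⁆ = 0 := by
  have : IsTopologicalGroup G := topologicalGroup_of_lieGroup 𝓘(ℂ, 𝔤) ω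
  have hinv : ContMDiff 𝓘(ℂ, 𝔤) 𝓘(ℂ, 𝔤) ω (fun x : G => x⁻¹) := contMDiff_inv 𝓘(ℂ, 𝔤) ω
  have hinvd : MDifferentiable 𝓘(ℂ, 𝔤) 𝓘(ℂ, 𝔤) (fun x : G => x⁻¹) :=
    hinv.mdifferentiable (by simp)
  have hL : ∀ g : G, MDifferentiable 𝓘(ℂ, 𝔤) 𝓘(ℂ, 𝔤) (fun x : G => g * x) := fun g =>
    (contMDiff_mul_left (I := 𝓘(ℂ, 𝔤)) (n := ω)).mdifferentiable (by simp)
  -- the derivative of the inversion
  have hd : ∀ (g : G) (u : LieAlg 𝔤 G),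
      (mfderiv 𝓘(ℂ, 𝔤) 𝓘(ℂ, 𝔤) (fun x : G => x⁻¹) g (mulInvariantVectorField u g) : 𝔤) =
        -(mulInvariantVectorField u g⁻¹ : 𝔤) := by
    intro g u
    have h1 : HasMFDerivAt 𝓘(ℂ, 𝔤) 𝓘(ℂ, 𝔤) ((fun x : G => x⁻¹) ∘ (fun x : G => g * x)) 1
        ((mfderiv 𝓘(ℂ, 𝔤) 𝓘(ℂ, 𝔤) (fun x : G => x⁻¹) (g * 1)).comp
          (mfderiv 𝓘(ℂ, 𝔤) 𝓘(ℂ, 𝔤) (fun x : G => g * x) 1)) :=
      HasMFDerivAt.comp (1 : G) (hinvd (g * 1)).hasMFDerivAt (hL g 1).hasMFDerivAt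
    have h2 : HasMFDerivAt 𝓘(ℂ, 𝔤) 𝓘(ℂ, 𝔤) ((fun x : G => g⁻¹ * x) ∘ (fun x : G => x⁻¹)) 1
        ((mfderiv 𝓘(ℂ, 𝔤) 𝓘(ℂ, 𝔤) (fun x : G => g⁻¹ * x) (1⁻¹)).comp
          (-ContinuousLinearMap.id ℂ 𝔤)) :=
      HasMFDerivAt.comp (1 : G) (hL g⁻¹ 1⁻¹).hasMFDerivAt hasMFDerivAt_inv_one
    have h3 : ((fun x : G => g⁻¹ * x) ∘ (fun x : G => x⁻¹)) =
        ((fun x : G => x⁻¹) ∘ (fun x : G => g * x)) := by
      ext x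
      simp only [Function.comp_apply, mul_inv_rev]
      exact hcomm _ _
    rw [h3] at h2
    have h4 := hasMFDerivAt_unique h1 h2
    have h5 := congrArg (fun L : 𝔤 →L[ℂ] 𝔤 => L u) h4
    have h6 : ∀ (a a' : G), a = a' → ∀ z : 𝔤,
        (mfderiv 𝓘(ℂ, 𝔤) 𝓘(ℂ, 𝔤) (fun x : G => x⁻¹) a : 𝔤 →L[ℂ] 𝔤) z =
        (mfderiv 𝓘(ℂ, 𝔤) 𝓘(ℂ, 𝔤) (fun x : G => x⁻¹) a' : 𝔤 →L[ℂ] 𝔤) z := by
      rintro a _ rfl z; rfl
    have h7 : ∀ (a a' : G), a = a' → ∀ z : 𝔤,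
        (mfderiv 𝓘(ℂ, 𝔤) 𝓘(ℂ, 𝔤) (fun x : G => g⁻¹ * x) a : 𝔤 →L[ℂ] 𝔤) z =
        (mfderiv 𝓘(ℂ, 𝔤) 𝓘(ℂ, 𝔤) (fun x : G => g⁻¹ * x) a' : 𝔤 →L[ℂ] 𝔤) z := by
      rintro a _ rfl z; rfl
    have h8 : (mfderiv 𝓘(ℂ, 𝔤) 𝓘(ℂ, 𝔤) (fun x : G => x⁻¹) (g * 1) : 𝔤 →L[ℂ] 𝔤)
        (mulInvariantVectorField u g : 𝔤) =
        (mfderiv 𝓘(ℂ, 𝔤) 𝓘(ℂ, 𝔤) (fun x : G => g⁻¹ * x) (1⁻¹) : 𝔤 →L[ℂ] 𝔤) (-(u : 𝔤)) := h5
    have e1 := h6 (g * 1) g (mul_one g) (mulInvariantVectorField u g : 𝔤)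
    have e2 := h7 1⁻¹ 1 inv_one (-(u : 𝔤))
    exact e1.symm.trans (h8.trans (e2.trans (map_neg _ _)))
  -- pull-back under the inversion
  have hpull : ∀ (u : LieAlg 𝔤 G), mpullback 𝓘(ℂ, 𝔤) 𝓘(ℂ, 𝔤) (fun x : G => x⁻¹)
      (mulInvariantVectorField u) = mulInvariantVectorField (-u) := by
    intro u
    ext g
    have hinvert : (mfderiv 𝓘(ℂ, 𝔤) 𝓘(ℂ, 𝔤) (fun x : G => x⁻¹) g).IsInvertible := by
      let Φ : Diffeomorph 𝓘(ℂ, 𝔤) 𝓘(ℂ, 𝔤) G G ω :=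
        { toEquiv := Equiv.inv G
          contMDiff_toFun := hinv
          contMDiff_invFun := hinv }
      exact ⟨Φ.mfderivToContinuousLinearEquiv (by simp) g, rfl⟩
    have h1 : mpullback 𝓘(ℂ, 𝔤) 𝓘(ℂ, 𝔤) (fun x : G => x⁻¹) (mulInvariantVectorField u) g =
      (mfderiv 𝓘(ℂ, 𝔤) 𝓘(ℂ, 𝔤) (fun x : G => x⁻¹) g).inverse (mulInvariantVectorField u g⁻¹) :=
      rfl
    have h2 : mulInvariantVectorField u g⁻¹ =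
        mfderiv 𝓘(ℂ, 𝔤) 𝓘(ℂ, 𝔤) (fun x : G => x⁻¹) g (mulInvariantVectorField (-u) g) := by
      have h3 : (mulInvariantVectorField (-u) g : 𝔤) = -(mulInvariantVectorField u g : 𝔤) := by
        change (mfderiv 𝓘(ℂ, 𝔤) 𝓘(ℂ, 𝔤) (fun x : G => g * x) 1 : 𝔤 →L[ℂ] 𝔤) (-(u : 𝔤)) =
          -((mfderiv 𝓘(ℂ, 𝔤) 𝓘(ℂ, 𝔤) (fun x : G => g * x) 1 : 𝔤 →L[ℂ] 𝔤) (u : 𝔤))
        rw [map_neg]
      have h4 := hd g u
      have h5 : (mfderiv 𝓘(ℂ, 𝔤) 𝓘(ℂ, 𝔤) (fun x : G => x⁻¹) g : 𝔤 →L[ℂ] 𝔤)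
          (mulInvariantVectorField (-u) g : 𝔤) = (mulInvariantVectorField u g⁻¹ : 𝔤) := by
        rw [h3, map_neg]
        rw [neg_eq_iff_eq_neg]
        exact h4
      exact h5.symm
    rw [h1, h2]
    exact ContinuousLinearMap.IsInvertible.inverse_apply_self hinvert _
  have h1 : mpullback 𝓘(ℂ, 𝔤) 𝓘(ℂ, 𝔤) (fun x : G => x⁻¹)
      (mlieBracket 𝓘(ℂ, 𝔤) (mulInvariantVectorField v) (mulInvariantVectorField w)) (1 : G) =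
      mlieBracket 𝓘(ℂ, 𝔤) (mpullback 𝓘(ℂ, 𝔤) 𝓘(ℂ, 𝔤) (fun x : G => x⁻¹)
        (mulInvariantVectorField v)) (mpullback 𝓘(ℂ, 𝔤) 𝓘(ℂ, 𝔤) (fun x : G => x⁻¹)
        (mulInvariantVectorField w)) (1 : G) :=
    mpullback_mlieBracket (n := ω) (mdifferentiableAt_mulInvariantVectorField _)
      (mdifferentiableAt_mulInvariantVectorField _) (hinv 1) (by simp)
  have h2 : ∀ u : LieAlg 𝔤 G, mulInvariantVectorField u (1 : G) = u := by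
    intro u
    have h3 : (fun x : G => 1 * x) = id := by
      ext x
      exact one_mul x
    change mfderiv 𝓘(ℂ, 𝔤) 𝓘(ℂ, 𝔤) (fun x : G => 1 * x) 1 u = u
    rw [h3, mfderiv_id]
    rfl
  rw [hpull, hpull] at h1
  have h3 : mlieBracket 𝓘(ℂ, 𝔤) (mulInvariantVectorField v) (mulInvariantVectorField w) =
      mulInvariantVectorField (⁅v, w⁆ : LieAlg 𝔤 G) := (mulInvariantVector_mlieBracket v w).symm
  rw [h3, hpull, h2] at h1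
  have h4 : -⁅v, w⁆ = ⁅-v, -w⁆ := h1
  rw [neg_lie, lie_neg, neg_neg] at h4
  have h5 : ∀ a : 𝔤, -a = a → a = 0 := by
    intro a ha
    have h6 : (2 : ℂ) • a = 0 := by
      rw [two_smul]
      nth_rewrite 1 [← ha]
      exact neg_add_cancel a
    exact (smul_eq_zero.1 h6).resolve_left two_ne_zero
  exact h5 _ h4

end Pool.Agent.Y167.Cartan
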