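import Pool.Agent.Y167.Cartan.Geom

/-! # The vector group, for which the conclusion of the question holds -/

set_option autoImplicit false
set_option linter.unusedSectionVars false

open scoped Manifold ContDiff Topology
open Set Filter Pool.Agent.H194R3.Cartan

namespace Pool.Agent.Y167.Cartan

/-- The additive group of a vector space, written multiplicatively. -/
def VecG (V : Type) : Type := V

namespace VecG

variable (V : Type) [NormedAddCommGroup V] [NormedSpace ℂ V]

instance : TopologicalSpace (VecG V) := inferInstanceAs (TopologicalSpace V)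
instance : T2Space (VecG V) := inferInstanceAs (T2Space V)
instance [FiniteDimensional ℂ V] : SecondCountableTopology (VecG V) := by
  have : ProperSpace V := FiniteDimensional.proper ℂ V
  exact inferInstanceAs (SecondCountableTopology V)
instance : SimplyConnectedSpace (VecG V) := by
  let _ : NormedSpace ℝ V := NormedSpace.restrictScalars ℝ ℂ V
  exact inferInstanceAs (SimplyConnectedSpace V)
instance : ConnectedSpace (VecG V) := by
  let _ : NormedSpace ℝ V := NormedSpace.restrictScalars ℝ ℂ V
  exact inferInstanceAs (ConnectedSpace V)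
instance : ChartedSpace V (VecG V) := inferInstanceAs (ChartedSpace V V)

/-- the vector -/
def v {V : Type} (p : VecG V) : V := p
/-- the element with given vector -/
def mk {V : Type} (p : V) : VecG V := p

instance : Group (VecG V) where
  mul p q := mk (p.v + q.v)
  one := mk 0
  inv p := mk (-p.v)
  mul_assoc p q r := add_assoc p.v q.v r.v
  one_mul p := zero_add p.v
  mul_one p := add_zero p.v
  inv_mul_cancel p := neg_add_cancel p.v

instance : LieGroup 𝓘(ℂ, V) ω (VecG V) where
  toIsManifold := inferInstanceAs (IsManifold 𝓘(ℂ, V) ω V)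
  contMDiff_mul := by
    rw [← modelWithCornersSelf_prod]
    have h : ContDiff ℂ ω (fun p : V × V => p.1 + p.2) := by
      fun_prop
    have h2 := h.contMDiff
    rw [← chartedSpaceSelf_prod] at h2
    exact h2
  contMDiff_inv := by
    have h : ContDiff ℂ ω (fun p : V => -p) := by
      fun_prop
    exact h.contMDiff

end VecG

variable {V : Type} [NormedAddCommGroup V] [NormedSpace ℂ V]
  (Λ : AddSubgroup V) [DiscreteTopology Λ]

lemma contMDiff_proj : ContMDiff 𝓘(ℂ, V) 𝓘(ℂ, V) ω (Torus.proj Λ) := by
  intro v
  have h1 : ContMDiffOn 𝓘(ℂ, V) 𝓘(ℂ, V) ω (chartAt V (Torus.proj Λ v)).symm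
      (chartAt V (Torus.proj Λ v)).target := contMDiffOn_chart_symm
  have h2 : ((chartAt V (Torus.proj Λ v)).symm : V → Torus Λ) = Torus.proj Λ := by
    ext u
    exact Torus.chart_symm Λ (chart_mem_atlas V _) u
  rw [h2] at h1
  -- the point `v` differs from a point of the target by an element of `Λ`
  obtain ⟨w, hw⟩ := Torus.key Λ (chart_mem_atlas V (Torus.proj Λ v))
    (mem_chart_source V (Torus.proj Λ v))
  set c := chartAt V (Torus.proj Λ v) with hc
  have h3 : c (Torus.proj Λ v) ∈ c.target := c.map_source (mem_chart_source V _)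
  have h4 : c (Torus.proj Λ v) = v + w := hw.self_of_nhds
  have h5 : ContMDiffAt 𝓘(ℂ, V) 𝓘(ℂ, V) ω (Torus.proj Λ) (v + w) := by
    rw [← h4]
    exact h1.contMDiffAt (c.open_target.mem_nhds h3)
  have h6 : ContMDiffAt 𝓘(ℂ, V) 𝓘(ℂ, V) ω (fun u => Torus.proj Λ (u + w)) v := by
    have h7 : ContMDiffAt 𝓘(ℂ, V) 𝓘(ℂ, V) ω (fun u : V => u + w) v :=
      (contDiff_id.add contDiff_const).contMDiff.contMDiffAt
    exact ContMDiffAt.comp v (g := Torus.proj Λ) h5 h7
  refine h6.congr_of_eventuallyEq ?_
  have hws : w ∈ Λ := by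
    have h8 : Torus.proj Λ v = Torus.proj Λ (v + w) := by
      rw [← h4]
      exact (proj_chart Λ (Torus.proj Λ v) (Torus.proj Λ v) (mem_chart_source V _)).symm
    rw [Torus.proj_eq_iff] at h8
    simpa using h8
  filter_upwards with u
  rw [Torus.proj_eq_iff]
  simpa using hws

lemma isLocalDiffeomorph_proj : IsLocalDiffeomorph 𝓘(ℂ, V) 𝓘(ℂ, V) ω (Torus.proj Λ) := by
  intro v
  obtain ⟨e, hv, he⟩ := Torus.isLocalHomeomorph Λ v
  have he' : ∀ u, e u = Torus.proj Λ u := fun u => by rw [← he]
  refine ⟨{ toPartialEquiv := e.toPartialEquiv, open_source := e.open_source,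
            open_target := e.open_target,
            contMDiffOn_toFun := ?_, contMDiffOn_invFun := ?_ }, hv, fun u _ => (he' u).symm⟩
  · exact (contMDiff_proj Λ).contMDiffOn.congr fun u _ => he' u
  · intro t ht
    apply ContMDiffAt.contMDiffWithinAt
    have h1 : e.symm t ∈ e.source := e.map_target ht
    have h2 : Torus.proj Λ (e.symm t) = t := by rw [← he', e.right_inv ht]
    have h3 : Torus.proj Λ (e.symm t) ∈ (chartAt V t).source := by
      rw [h2]
      exact mem_chart_source V t
    obtain ⟨w, hw⟩ := Torus.key Λ (chart_mem_atlas V t) h3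
    have h4 : ∀ᶠ t' in 𝓝 t, chartAt V t (Torus.proj Λ (e.symm t')) = e.symm t' + w :=
      (e.symm.continuousAt (x := t) ht).eventually hw
    have h5 : ContMDiffAt 𝓘(ℂ, V) 𝓘(ℂ, V) ω (fun t' => chartAt V t t' - w) t :=
      (contMDiffAt_chart Λ t).sub contMDiffAt_const
    refine h5.congr_of_eventuallyEq ?_
    filter_upwards [h4, e.open_target.mem_nhds ht] with t' ht' ht''
    have h6 : Torus.proj Λ (e.symm t') = t' := by rw [← he', e.right_inv ht'']
    rw [h6] at ht'
    change e.symm t' = chartAt V t t' - w
    rw [ht', add_sub_cancel_right]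

/-- For the vector group the conclusion of the question holds for every complex torus. -/
theorem conclusion_vecG [CompactSpace (Torus Λ)] : Conclusion V (VecG V) V (Torus Λ) :=
  conclusion_of_hom Λ (G := VecG V) (fun p => Torus.proj Λ p.v) (fun _ _ => rfl)
    (fun t => Torus.proj_surjective Λ t) (isLocalDiffeomorph_proj Λ)

end Pool.Agent.Y167.Cartan
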