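import Pool.Agent.Y167.Cartan.AffN
import Pool.Agent.Y167.Cartan.Vec

/-! # The hypotheses of the question for a torus and a complex Lie group -/

set_option autoImplicit false
set_option linter.unusedSectionVars false

open scoped Manifold ContDiff Topology
open Set Filter Pool.Agent.H194R3.Cartan

namespace Pool.Agent.Y167.Cartan

/-- The hypotheses of the question for the homogeneous space `G = G/H` with trivial `H` (the group
`PUnit`, included by `trivialSub G`) and the complex manifold `M`: the trivial group is a closed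
complex subgroup, `G` with base point `1` is the homogeneous space `G/1`, it is not biholomorphic
to a product of `P¹` with a complex manifold, `M` has a Kähler form, `dim M = dim G`, and `M`
carries a holomorphic Cartan geometry modelled on `G/1`. -/
structure Hypotheses (𝔤 : Type) [NormedAddCommGroup 𝔤] [NormedSpace ℂ 𝔤]
    (G : Type) [TopologicalSpace G] [ChartedSpace 𝔤 G] [Group G]
    (𝔪 : Type) [NormedAddCommGroup 𝔪] [NormedSpace ℂ 𝔪]
    (M : Type) [TopologicalSpace M] [ChartedSpace 𝔪 M] [IsManifold 𝓘(ℂ, 𝔪) ω M] : Prop where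
  subgroup : IsClosedComplexSubgroup 𝔤 PUnit (trivialSub G)
  homogeneous : IsHomogeneousSpace 𝔤 𝔤 (trivialSub G) (1 : G)
  noFactor : ¬ HasP1Factor 𝔤 G
  kahler : Nonempty (KahlerForm 𝔪 M)
  dim : Module.finrank ℂ 𝔪 = Module.finrank ℂ 𝔤
  cartan : Nonempty (CartanGeometry 𝔤 PUnit 𝔪 M 𝔪 M (trivialSub G))

theorem hypotheses_torus {𝔤 : Type} [NormedAddCommGroup 𝔤] [NormedSpace ℂ 𝔤]
    [FiniteDimensional ℂ 𝔤] {G : Type} [TopologicalSpace G] [T2Space G]
    [ChartedSpace 𝔤 G] [Group G] [LieGroup 𝓘(ℂ, 𝔤) ω G]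
    {V : Type} [NormedAddCommGroup V] [NormedSpace ℂ V] [FiniteDimensional ℂ V]
    (Λ : AddSubgroup V) [DiscreteTopology Λ]
    (hdim : Module.finrank ℂ V = Module.finrank ℂ 𝔤) : Hypotheses 𝔤 G V (Torus Λ) where
  subgroup := isClosedComplexSubgroup_trivialSub
  homogeneous := isHomogeneousSpace_self
  noFactor := not_hasP1Factor
  kahler := ⟨kahlerTorusV Λ⟩
  dim := hdim
  cartan := ⟨cartanTorusV Λ (ContinuousLinearEquiv.ofFinrankEq hdim)⟩

end Pool.Agent.Y167.Cartan
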