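import Pool.Agent.Y167.Cartan.Abel2
import Pool.Agent.W490.Flat.Main

/-! # Flat holomorphic Cartan geometries on complex tori modelled on a complex Lie group -/

set_option autoImplicit false
set_option linter.unusedSectionVars false

open scoped Manifold ContDiff Topology
open Set Filter Pool.Agent.H194R3.Cartan Pool.Agent.W490.Flat VectorField

namespace Pool.Agent.Y167.Cartan

section

variable {V : Type} [NormedAddCommGroup V] [NormedSpace ℂ V]
  {𝔤 : Type} [NormedAddCommGroup 𝔤] [NormedSpace ℂ 𝔤]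
  {G : Type} [TopologicalSpace G] [ChartedSpace 𝔤 G] [Group G] [LieGroup 𝓘(ℂ, 𝔤) ω G]
  (Λ : AddSubgroup V) [DiscreteTopology Λ]

/-- The constant geometry is flat if the Lie algebra is abelian. -/
lemma isFlat_cartanTorusV (Θ : V ≃L[ℂ] 𝔤) (h0 : ∀ v w : LieAlg 𝔤 G, ⁅v, w⁆ = 0) :
    IsFlat (cartanTorusV (G := G) Λ Θ) := by
  intro p y _ a b
  have hΩ : oneFormInChart (𝔤 := 𝔤) (cartanTorusV (G := G) Λ Θ).form p =
      fun _ => (Θ : V →L[ℂ] 𝔤) := by
    funext y
    unfold oneFormInChart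
    simp only [Torus.mfderiv_extChartAt_symm]
    rfl
  have key : ∀ (F : V → V →L[ℂ] 𝔤), F = (fun _ => (Θ : V →L[ℂ] 𝔤)) →
      ∀ (x₁ x₂ : LieAlg 𝔤 G) (z : 𝔤), z = (⁅x₁, x₂⁆ : LieAlg 𝔤 G) →
      fderiv ℂ F y a b - fderiv ℂ F y b a + z = 0 := by
    rintro _ rfl x₁ x₂ z hz
    have hz0 : z = 0 := hz.trans (h0 x₁ x₂)
    have hf : fderiv ℂ (fun _ : V => (Θ : V →L[ℂ] 𝔤)) y = 0 := (hasFDerivAt_const _ _).fderiv
    rw [hf, hz0]
    simp
  exact key _ hΩ _ _ _ rfl

end

/-- `M` carries a flat holomorphic Cartan geometry modelled on `G/1`, on some total space. This is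
the conclusion of the question for the trivial subgroup. -/
def HasFlatGeometry (𝔤 : Type) [NormedAddCommGroup 𝔤] [NormedSpace ℂ 𝔤]
    (G : Type) [TopologicalSpace G] [ChartedSpace 𝔤 G] [Group G]
    (𝔪 : Type) [NormedAddCommGroup 𝔪] [NormedSpace ℂ 𝔪]
    (M : Type) [TopologicalSpace M] [ChartedSpace 𝔪 M] : Prop :=
  ∃ (𝔢 : Type) (_ : NormedAddCommGroup 𝔢) (_ : NormedSpace ℂ 𝔢) (_ : FiniteDimensional ℂ 𝔢)
    (E : Type) (_ : TopologicalSpace E) (_ : T2Space E) (_ : SecondCountableTopology E)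
    (_ : ChartedSpace 𝔢 E) (_ : IsManifold 𝓘(ℂ, 𝔢) ω E)
    (C : CartanGeometry 𝔤 PUnit 𝔪 M 𝔢 E (trivialSub G)), IsFlat C

/-- The hypotheses of the question for the homogeneous space `G = G/1` (the trivial group is
`PUnit`, included by `trivialSub G`) and the complex manifold `M`: the trivial group is a closed
complex subgroup, `G` with base point `1` is the homogeneous space `G/1`, `M` has a Kähler form,
`dim M = dim G`, and `M` carries a holomorphic Cartan geometry modelled on `G/1`. -/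
structure GeometryHypotheses (𝔤 : Type) [NormedAddCommGroup 𝔤] [NormedSpace ℂ 𝔤]
    (G : Type) [TopologicalSpace G] [ChartedSpace 𝔤 G] [Group G]
    (𝔪 : Type) [NormedAddCommGroup 𝔪] [NormedSpace ℂ 𝔪]
    (M : Type) [TopologicalSpace M] [ChartedSpace 𝔪 M] [IsManifold 𝓘(ℂ, 𝔪) ω M] : Prop where
  subgroup : IsClosedComplexSubgroup 𝔤 PUnit (trivialSub G)
  homogeneous : IsHomogeneousSpace 𝔤 𝔤 (trivialSub G) (1 : G)
  kahler : Nonempty (KahlerForm 𝔪 M)
  dim : Module.finrank ℂ 𝔪 = Module.finrank ℂ 𝔤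
  cartan : Nonempty (CartanGeometry 𝔤 PUnit 𝔪 M 𝔪 M (trivialSub G))

section

variable {𝔤 : Type} [NormedAddCommGroup 𝔤] [NormedSpace ℂ 𝔤] [FiniteDimensional ℂ 𝔤]
  {G : Type} [TopologicalSpace G] [T2Space G] [ChartedSpace 𝔤 G] [Group G]
  [LieGroup 𝓘(ℂ, 𝔤) ω G]
  {V : Type} [NormedAddCommGroup V] [NormedSpace ℂ V] [FiniteDimensional ℂ V]
  (Λ : AddSubgroup V) [DiscreteTopology Λ]

theorem geometryHypotheses_torus (hdim : Module.finrank ℂ V = Module.finrank ℂ 𝔤) :
    GeometryHypotheses 𝔤 G V (Torus Λ) where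
  subgroup := isClosedComplexSubgroup_trivialSub
  homogeneous := isHomogeneousSpace_self
  kahler := ⟨kahlerTorusV Λ⟩
  dim := hdim
  cartan := ⟨cartanTorusV Λ (ContinuousLinearEquiv.ofFinrankEq hdim)⟩

variable [ConnectedSpace G] [CompactSpace (Torus Λ)]

/-- A complex torus carries a flat holomorphic geometry modelled on `G/1` if and only if the group
`G` is commutative. -/
theorem hasFlatGeometry_iff (hdim : Module.finrank ℂ V = Module.finrank ℂ 𝔤) :
    HasFlatGeometry 𝔤 G V (Torus Λ) ↔ ∀ a b : G, a * b = b * a := by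
  have : CompleteSpace 𝔤 := FiniteDimensional.complete ℂ 𝔤
  constructor
  · rintro ⟨𝔢, i1, i2, i3, E, i4, i5, i6, i7, i8, C, hC⟩
    exact commutative_of_brackets (𝔤 := 𝔤) fun v w => bracket_eq_zero_of_flat hdim C hC v w
  · intro hcomm
    exact ⟨V, inferInstance, inferInstance, inferInstance, Torus Λ, inferInstance, inferInstance,
      inferInstance, inferInstance, inferInstance,
      cartanTorusV Λ (ContinuousLinearEquiv.ofFinrankEq hdim),
      isFlat_cartanTorusV Λ _ (fun v w => bracket_eq_zero_of_comm hcomm v w)⟩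

end

end Pool.Agent.Y167.Cartan
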