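import Pool.Agent.Y167.Cartan.Final
import Pool.Agent.W490.Flat.NoGX

/-! # Complex tori with a `(G, G)`-structure

If a complex torus of the dimension of the connected complex Lie group `G` has a holomorphic
`(G, G)`-structure then `G` is commutative. -/

set_option autoImplicit false
set_option linter.unusedSectionVars false

open scoped Manifold ContDiff Topology
open Set Filter Pool.Agent.H194R3.Cartan Pool.Agent.W490.Flat

namespace Pool.Agent.Y167.Cartan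

variable {𝔤 : Type} [NormedAddCommGroup 𝔤] [NormedSpace ℂ 𝔤]
  {G : Type} [TopologicalSpace G] [ChartedSpace 𝔤 G] [Group G] [LieGroup 𝓘(ℂ, 𝔤) ω G]
  {V : Type} [NormedAddCommGroup V] [NormedSpace ℂ V]

/-- the pull-back of the Maurer-Cartan form by `c`, at the point `v` -/
noncomputable def mc (𝔤 : Type) [NormedAddCommGroup 𝔤] [NormedSpace ℂ 𝔤]
    {G : Type} [TopologicalSpace G] [ChartedSpace 𝔤 G] [Group G]
    (c : V → G) (v : V) : V →L[ℂ] 𝔤 :=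
  fderiv ℂ (fun u => phi (𝔤 := 𝔤) G ((c v)⁻¹ * c u)) v

lemma contDiffAt_twoV (c : V → G) (v₀ : V) (hc : ContMDiffAt 𝓘(ℂ, V) 𝓘(ℂ, 𝔤) ω c v₀) :
    ContDiffAt ℂ ω (fun p : V × V => phi (𝔤 := 𝔤) G ((c p.1)⁻¹ * c p.2)) (v₀, v₀) := by
  have e1 : ContMDiffAt 𝓘(ℂ, V × V) 𝓘(ℂ, 𝔤) ω (fun p : V × V => c p.1) (v₀, v₀) :=
    ContMDiffAt.comp (v₀, v₀) (g := c) (f := Prod.fst) hc contDiff_fst.contMDiff.contMDiffAt
  have e2 : ContMDiffAt 𝓘(ℂ, V × V) 𝓘(ℂ, 𝔤) ω (fun p : V × V => c p.2) (v₀, v₀) :=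
    ContMDiffAt.comp (v₀, v₀) (g := c) (f := Prod.snd) hc contDiff_snd.contMDiff.contMDiffAt
  have h1 : ContMDiffAt 𝓘(ℂ, V × V) 𝓘(ℂ, 𝔤) ω (fun p : V × V => (c p.1)⁻¹ * c p.2) (v₀, v₀) :=
    e1.inv.mul e2
  rw [← contMDiffAt_iff_contDiffAt]
  refine ContMDiffAt.comp (v₀, v₀) (g := phi (𝔤 := 𝔤) G) ?_ h1
  simp only [inv_mul_cancel]
  exact contMDiffAt_phi

lemma differentiableAt_mc (c : V → G) (v₀ : V)
    (hc : ContMDiffAt 𝓘(ℂ, V) 𝓘(ℂ, 𝔤) ω c v₀) (w : V) :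
    DifferentiableAt ℂ (fun v => mc 𝔤 c v w) v₀ := by
  set P : V × V → 𝔤 := fun p => phi (𝔤 := 𝔤) G ((c p.1)⁻¹ * c p.2) with hP
  have h1 : ContDiffAt ℂ ω P (v₀, v₀) := contDiffAt_twoV c v₀ hc
  have h2 : ContDiffAt ℂ 1 (fderiv ℂ P) (v₀, v₀) := h1.fderiv_right (by simp)
  have h3 : ContDiffAt ℂ 1 (fun z => fderiv ℂ P (z, z) (0, w)) v₀ :=
    (ContDiffAt.comp v₀ (g := fderiv ℂ P) (f := fun z => (z, z)) h2
      (contDiffAt_id.prodMk contDiffAt_id)).clm_apply contDiffAt_const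
  have h4 : ∀ᶠ z in 𝓝 v₀, mc 𝔤 c z w = fderiv ℂ P (z, z) (0, w) := by
    have hcc : ContinuousAt (fun z : V => (z, z)) v₀ := by fun_prop
    filter_upwards [hcc.eventually (h1.eventually (by simp))] with z hz
    have h5 : HasFDerivAt P (fderiv ℂ P (z, z)) (z, z) :=
      (hz.differentiableAt (by simp)).hasFDerivAt
    have h6 : HasFDerivAt (fun w : V => (z, w))
        ((0 : V →L[ℂ] V).prod (ContinuousLinearMap.id ℂ V)) z :=
      (hasFDerivAt_const z z).prodMk (hasFDerivAt_id z)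
    have h7 := (h5.comp z h6).fderiv
    have h8 : mc 𝔤 c z = (fderiv ℂ P (z, z)).comp
        ((0 : V →L[ℂ] V).prod (ContinuousLinearMap.id ℂ V)) := h7
    rw [h8]
    rfl
  exact (h3.differentiableAt (by simp)).congr_of_eventuallyEq h4

lemma mc_congr (c c' : V → G) (v : V) (g : G) (h : ∀ᶠ u in 𝓝 v, c' u = g * c u) :
    mc 𝔤 c' v = mc 𝔤 c v := by
  unfold mc
  apply Filter.EventuallyEq.fderiv_eq
  filter_upwards [h] with u hu
  rw [h.self_of_nhds, hu]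
  congr 1
  group

lemma mc_shift (c : V → G) (h v : V) : mc 𝔤 (fun u => c (u + h)) v = mc 𝔤 c (v + h) := by
  unfold mc
  rw [← fderiv_comp_add_right]

lemma contMDiffAt_phi_symm :
    ContMDiffAt 𝓘(ℂ, 𝔤) 𝓘(ℂ, 𝔤) ω (extChartAt 𝓘(ℂ, 𝔤) (1 : G)).symm (phi (𝔤 := 𝔤) G 1) := by
  have h4 : ContMDiffOn 𝓘(ℂ, 𝔤) 𝓘(ℂ, 𝔤) ω (extChartAt 𝓘(ℂ, 𝔤) (1 : G)).symm
    (extChartAt 𝓘(ℂ, 𝔤) (1 : G)).target := contMDiffOn_extChartAt_symm _
  exact h4.contMDiffAt (extChartAt_target_mem_nhds (1 : G))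

lemma phi_symm_one : (extChartAt 𝓘(ℂ, 𝔤) (1 : G)).symm (phi (𝔤 := 𝔤) G 1) = 1 :=
  extChartAt_to_inv (1 : G)

/-- the quotient of two maps with the same derivative where both are `1` -/
lemma hasFDerivAt_quot (α β : V → G) (v : V) (hα : ContMDiffAt 𝓘(ℂ, V) 𝓘(ℂ, 𝔤) 1 α v)
    (hβ : ContMDiffAt 𝓘(ℂ, V) 𝓘(ℂ, 𝔤) 1 β v) (hα1 : α v = 1) (hβ1 : β v = 1)
    (h : fderiv ℂ (fun u => phi (𝔤 := 𝔤) G (α u)) v = fderiv ℂ (fun u => phi (𝔤 := 𝔤) G (β u)) v) :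
    HasFDerivAt (fun u => phi (𝔤 := 𝔤) G (α u * (β u)⁻¹)) (0 : V →L[ℂ] 𝔤) v := by
  set e := extChartAt 𝓘(ℂ, 𝔤) (1 : G) with he
  set x₁ : 𝔤 := phi (𝔤 := 𝔤) G 1 with hx₁
  let Q : 𝔤 × 𝔤 → 𝔤 := fun p => phi (𝔤 := 𝔤) G (e.symm p.1 * (e.symm p.2)⁻¹)
  have hQ : ContDiffAt ℂ ω Q (x₁, x₁) := by
    rw [← contMDiffAt_iff_contDiffAt]
    have e1 : ContMDiffAt 𝓘(ℂ, 𝔤 × 𝔤) 𝓘(ℂ, 𝔤) ω (fun p : 𝔤 × 𝔤 => e.symm p.1) (x₁, x₁) :=
      ContMDiffAt.comp (x₁, x₁) (g := e.symm) (f := Prod.fst) contMDiffAt_phi_symm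
        contDiff_fst.contMDiff.contMDiffAt
    have e2 : ContMDiffAt 𝓘(ℂ, 𝔤 × 𝔤) 𝓘(ℂ, 𝔤) ω (fun p : 𝔤 × 𝔤 => e.symm p.2) (x₁, x₁) :=
      ContMDiffAt.comp (x₁, x₁) (g := e.symm) (f := Prod.snd) contMDiffAt_phi_symm
        contDiff_snd.contMDiff.contMDiffAt
    have e3 : ContMDiffAt 𝓘(ℂ, 𝔤 × 𝔤) 𝓘(ℂ, 𝔤) ω
        (fun p : 𝔤 × 𝔤 => e.symm p.1 * (e.symm p.2)⁻¹) (x₁, x₁) := e1.mul e2.inv
    refine ContMDiffAt.comp (x₁, x₁) (g := phi (𝔤 := 𝔤) G) ?_ e3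
    have e4 : e.symm x₁ = 1 := phi_symm_one
    simp only [e4, inv_one, mul_one]
    exact contMDiffAt_phi
  have hQd : HasFDerivAt Q (fderiv ℂ Q (x₁, x₁)) (x₁, x₁) :=
    (hQ.differentiableAt (by simp)).hasFDerivAt
  -- the derivative vanishes on the diagonal
  have hdiag : ∀ x : 𝔤, fderiv ℂ Q (x₁, x₁) (x, x) = 0 := by
    intro x
    have h6 : HasFDerivAt (fun y : 𝔤 => (y, y))
        ((ContinuousLinearMap.id ℂ 𝔤).prod (ContinuousLinearMap.id ℂ 𝔤)) x₁ :=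
      (hasFDerivAt_id x₁).prodMk (hasFDerivAt_id x₁)
    have h7 := HasFDerivAt.comp (g := Q) (f := fun y : 𝔤 => (y, y)) x₁ hQd h6
    have h8 : (Q ∘ fun y : 𝔤 => (y, y)) = fun _ => phi (𝔤 := 𝔤) G 1 := by
      ext y
      simp only [Q, Function.comp_apply, mul_inv_cancel]
    rw [h8] at h7
    have h9 := h7.unique (hasFDerivAt_const _ _)
    exact congrArg (fun L : 𝔤 →L[ℂ] 𝔤 => L x) h9
  have hα' : HasFDerivAt (fun u => phi (𝔤 := 𝔤) G (α u))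
      (fderiv ℂ (fun u => phi (𝔤 := 𝔤) G (α u)) v) v := by
    have h10 : ContMDiffAt 𝓘(ℂ, V) 𝓘(ℂ, 𝔤) 1 (fun u => phi (𝔤 := 𝔤) G (α u)) v := by
      refine ContMDiffAt.comp v (g := phi (𝔤 := 𝔤) G) ?_ hα
      rw [hα1]
      exact contMDiffAt_phi.of_le le_top
    exact ((contMDiffAt_iff_contDiffAt.1 h10).differentiableAt (by simp)).hasFDerivAt
  have hβ' : HasFDerivAt (fun u => phi (𝔤 := 𝔤) G (β u))
      (fderiv ℂ (fun u => phi (𝔤 := 𝔤) G (α u)) v) v := by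
    have h10 : ContMDiffAt 𝓘(ℂ, V) 𝓘(ℂ, 𝔤) 1 (fun u => phi (𝔤 := 𝔤) G (β u)) v := by
      refine ContMDiffAt.comp v (g := phi (𝔤 := 𝔤) G) ?_ hβ
      rw [hβ1]
      exact contMDiffAt_phi.of_le le_top
    rw [h]
    exact ((contMDiffAt_iff_contDiffAt.1 h10).differentiableAt (by simp)).hasFDerivAt
  have h11 := hα'.prodMk hβ'
  have h12 : HasFDerivAt Q (fderiv ℂ Q (x₁, x₁))
      ((fun u => (phi (𝔤 := 𝔤) G (α u), phi (𝔤 := 𝔤) G (β u))) v) := by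
    simp only [hα1, hβ1]
    exact hQd
  have h13 := h12.comp v h11
  have h14 : (fderiv ℂ Q (x₁, x₁)).comp ((fderiv ℂ (fun u => phi (𝔤 := 𝔤) G (α u)) v).prod
      (fderiv ℂ (fun u => phi (𝔤 := 𝔤) G (α u)) v)) = 0 := by
    ext w
    exact hdiag _
  rw [h14] at h13
  refine h13.congr_of_eventuallyEq ?_
  have hsrc : e.source ∈ 𝓝 (1 : G) := extChartAt_source_mem_nhds (1 : G)
  have ha : ∀ᶠ u in 𝓝 v, α u ∈ e.source :=
    hα.continuousAt.preimage_mem_nhds (by rw [hα1]; exact hsrc)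
  have hb : ∀ᶠ u in 𝓝 v, β u ∈ e.source :=
    hβ.continuousAt.preimage_mem_nhds (by rw [hβ1]; exact hsrc)
  filter_upwards [ha, hb] with u hu1 hu2
  have h15 : e.symm (phi (𝔤 := 𝔤) G (α u)) = α u := e.left_inv hu1
  have h16 : e.symm (phi (𝔤 := 𝔤) G (β u)) = β u := e.left_inv hu2
  simp only [Q, Function.comp_apply, h15, h16]

/-- zero derivatives are preserved by translations -/
lemma hasFDerivAt_translate (γ : V → G) (v : V) (hγ : ContinuousAt γ v) (h1 : γ v = 1)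
    (h : HasFDerivAt (fun u => phi (𝔤 := 𝔤) G (γ u)) (0 : V →L[ℂ] 𝔤) v) (a b p : G)
    (hab : a * b ∈ (chartAt 𝔤 p).source) :
    HasFDerivAt (fun u => extChartAt 𝓘(ℂ, 𝔤) p (a * γ u * b)) (0 : V →L[ℂ] 𝔤) v := by
  set e := extChartAt 𝓘(ℂ, 𝔤) (1 : G) with he
  have hψ : ContMDiffAt 𝓘(ℂ, 𝔤) 𝓘(ℂ, 𝔤) ω (extChartAt 𝓘(ℂ, 𝔤) p) (a * b) :=
    contMDiffAt_extChartAt' hab
  have h2 : ContMDiff 𝓘(ℂ, 𝔤) 𝓘(ℂ, 𝔤) ω (fun y : G => a * y * b) :=
    (contMDiff_mul_right (I := 𝓘(ℂ, 𝔤)) (n := ω) (a := b)).comp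
      (contMDiff_mul_left (I := 𝓘(ℂ, 𝔤)) (n := ω) (a := a))
  have h6 : ContMDiffAt 𝓘(ℂ, 𝔤) 𝓘(ℂ, 𝔤) ω
      (fun x : 𝔤 => extChartAt 𝓘(ℂ, 𝔤) p (a * e.symm x * b)) (phi (𝔤 := 𝔤) G 1) := by
    have h3 : ContMDiffAt 𝓘(ℂ, 𝔤) 𝓘(ℂ, 𝔤) ω (fun x : 𝔤 => a * e.symm x * b)
        (phi (𝔤 := 𝔤) G 1) := h2.contMDiffAt.comp _ contMDiffAt_phi_symm
    refine ContMDiffAt.comp (phi (𝔤 := 𝔤) G 1) (g := extChartAt 𝓘(ℂ, 𝔤) p) ?_ h3
    have e4 : e.symm (phi (𝔤 := 𝔤) G 1) = 1 := phi_symm_one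
    rw [e4, mul_one]
    exact hψ
  have h7 : HasFDerivAt (fun x : 𝔤 => extChartAt 𝓘(ℂ, 𝔤) p (a * e.symm x * b))
      (fderiv ℂ (fun x : 𝔤 => extChartAt 𝓘(ℂ, 𝔤) p (a * e.symm x * b))
        (phi (𝔤 := 𝔤) G (γ v))) (phi (𝔤 := 𝔤) G (γ v)) := by
    rw [h1]
    exact ((contMDiffAt_iff_contDiffAt.1 h6).differentiableAt (by simp)).hasFDerivAt
  have h9 := h7.comp v h
  rw [ContinuousLinearMap.comp_zero] at h9
  refine h9.congr_of_eventuallyEq ?_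
  have h10 : ∀ᶠ u in 𝓝 v, γ u ∈ e.source :=
    hγ.preimage_mem_nhds (by rw [h1]; exact extChartAt_source_mem_nhds (1 : G))
  filter_upwards [h10] with u hu
  simp only [Function.comp_apply]
  have h11 : e.symm (phi (𝔤 := 𝔤) G (γ u)) = γ u := e.left_inv hu
  rw [h11]

/-- A map with constant logarithmic derivative near `0` is a local homomorphism, up to a
translation. -/
lemma local_hom (c : V → G) (U : Set V) (hU : U ∈ 𝓝 (0 : V))
    (hc : ∀ v ∈ U, ContMDiffAt 𝓘(ℂ, V) 𝓘(ℂ, 𝔤) 1 c v) (L : V →L[ℂ] 𝔤)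
    (hL : ∀ v ∈ U, mc 𝔤 c v = L) :
    ∃ r > 0, ∀ v ∈ Metric.ball (0 : V) r, ∀ h ∈ Metric.ball (0 : V) r,
      c (v + h) * (c v)⁻¹ = c h * (c 0)⁻¹ := by
  have : IsTopologicalGroup G := topologicalGroup_of_lieGroup 𝓘(ℂ, 𝔤) ω
  obtain ⟨ε, hε, hball⟩ := Metric.mem_nhds_iff.1 hU
  have hc0 : ContinuousAt c 0 := (hc 0 (mem_of_mem_nhds hU)).continuousAt
  have hK : ContinuousAt (fun p : V × V => c (p.1 + p.2) * (c p.1)⁻¹) (0, 0) := by
    have e1 : ContinuousAt (fun p : V × V => c (p.1 + p.2)) (0, 0) := by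
      refine ContinuousAt.comp (g := c) ?_ (by fun_prop)
      simp only [add_zero]
      exact hc0
    have e2 : ContinuousAt (fun p : V × V => c p.1) (0, 0) :=
      ContinuousAt.comp (g := c) (f := Prod.fst) hc0 continuousAt_fst
    exact e1.mul e2.inv
  have hsrc : ∀ᶠ p : V × V in 𝓝 (0, 0),
      c (p.1 + p.2) * (c p.1)⁻¹ ∈ (chartAt 𝔤 (1 : G)).source := by
    apply hK.preimage_mem_nhds
    simp only [add_zero, mul_inv_cancel]
    exact (chartAt 𝔤 (1 : G)).open_source.mem_nhds (mem_chart_source 𝔤 _)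
  obtain ⟨δ, hδ, hδ2⟩ := Metric.eventually_nhds_iff_ball.1 hsrc
  refine ⟨min δ (ε / 2), by positivity, fun v hv h hh => ?_⟩
  rw [mem_ball_zero_iff] at hv hh
  have hvh : ∀ u ∈ Metric.ball (0 : V) (min δ (ε / 2)), u ∈ U ∧ u + h ∈ U ∧
      c (u + h) * (c u)⁻¹ ∈ (chartAt 𝔤 (1 : G)).source := by
    intro u hu
    rw [mem_ball_zero_iff] at hu
    have m1 := min_le_left δ (ε / 2)
    have m2 := min_le_right δ (ε / 2)
    refine ⟨hball ?_, hball ?_, ?_⟩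
    · rw [mem_ball_zero_iff]; linarith
    · rw [mem_ball_zero_iff]
      have := norm_add_le u h
      linarith
    · refine hδ2 (u, h) ?_
      rw [Metric.mem_ball, dist_eq_norm, Prod.mk_zero_zero, sub_zero, Prod.norm_def]
      exact max_lt (hu.trans_le m1) (hh.trans_le m1)
  -- the derivative in `u`
  have hder : ∀ u ∈ Metric.ball (0 : V) (min δ (ε / 2)),
      HasFDerivAt (fun u => extChartAt 𝓘(ℂ, 𝔤) (1 : G) (c (u + h) * (c u)⁻¹))
        (0 : V →L[ℂ] 𝔤) u := by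
    intro u hu
    obtain ⟨hu1, hu2, hu3⟩ := hvh u hu
    have hcs : ContMDiffAt 𝓘(ℂ, V) 𝓘(ℂ, 𝔤) 1 (fun x => c (x + h)) u :=
      ContMDiffAt.comp u (g := c) (f := fun x => x + h) (hc _ hu2)
        (contDiff_id.add contDiff_const).contMDiff.contMDiffAt
    have hα : ContMDiffAt 𝓘(ℂ, V) 𝓘(ℂ, 𝔤) 1 (fun x => (c (u + h))⁻¹ * c (x + h)) u :=
      contMDiffAt_const.mul hcs
    have hβ : ContMDiffAt 𝓘(ℂ, V) 𝓘(ℂ, 𝔤) 1 (fun x => (c u)⁻¹ * c x) u :=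
      contMDiffAt_const.mul (hc _ hu1)
    have heq : fderiv ℂ (fun x => phi (𝔤 := 𝔤) G ((c (u + h))⁻¹ * c (x + h))) u =
        fderiv ℂ (fun x => phi (𝔤 := 𝔤) G ((c u)⁻¹ * c x)) u := by
      have e1 : mc 𝔤 (fun x => c (x + h)) u = mc 𝔤 c u := by
        rw [mc_shift, hL _ hu2, hL _ hu1]
      exact e1
    have h1 := hasFDerivAt_quot (fun x => (c (u + h))⁻¹ * c (x + h)) (fun x => (c u)⁻¹ * c x) u
      hα hβ (inv_mul_cancel _) (inv_mul_cancel _) heq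
    have h2 := hasFDerivAt_translate
      (fun x => ((c (u + h))⁻¹ * c (x + h)) * ((c u)⁻¹ * c x)⁻¹) u
      (hα.continuousAt.mul hβ.continuousAt.inv) (by simp) h1 (c (u + h)) (c u)⁻¹ 1 hu3
    refine h2.congr_of_eventuallyEq ?_
    filter_upwards with x
    congr 1
    group
  obtain ⟨a, ha⟩ := Metric.isOpen_ball.exists_is_const_of_fderiv_eq_zero
    (convex_ball (0 : V) (min δ (ε / 2))).isPreconnected
    (f := fun u => extChartAt 𝓘(ℂ, 𝔤) (1 : G) (c (u + h) * (c u)⁻¹))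
    (fun z hz => (hder z hz).differentiableAt.differentiableWithinAt)
    (fun z hz => (hder z hz).fderiv)
  have h0 : (0 : V) ∈ Metric.ball (0 : V) (min δ (ε / 2)) := Metric.mem_ball_self (by positivity)
  have hvb : v ∈ Metric.ball (0 : V) (min δ (ε / 2)) := by rw [mem_ball_zero_iff]; exact hv
  have h1 := (ha v hvb).trans (ha 0 h0).symm
  have h2 := (extChartAt 𝓘(ℂ, 𝔤) (1 : G)).injOn
    (by rw [extChartAt_source]; exact (hvh v hvb).2.2)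
    (by rw [extChartAt_source]; exact (hvh 0 h0).2.2) h1
  rw [zero_add] at h2
  exact h2

/-- A connected topological group with commuting elements near `1` is commutative. -/
lemma commutative_of_nhds {G : Type} [TopologicalSpace G] [Group G] [IsTopologicalGroup G]
    [ConnectedSpace G] (N : Set G) (hN : N ∈ 𝓝 (1 : G)) (h : ∀ a ∈ N, ∀ b ∈ N, a * b = b * a)
    (a b : G) : a * b = b * a := by
  have top : ∀ S : Subgroup G, N ⊆ (S : Set G) → ∀ x, x ∈ S := by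
    intro S hS x
    have hSo : IsOpen (S : Set G) := S.isOpen_of_mem_nhds (g := 1) (mem_of_superset hN hS)
    have h2 : (S : Set G) = univ := IsClopen.eq_univ ⟨S.isClosed_of_isOpen hSo, hSo⟩ ⟨1, S.one_mem⟩
    have h3 : x ∈ (S : Set G) := by rw [h2]; exact mem_univ x
    exact h3
  have h1 : ∀ a ∈ N, ∀ x : G, a * x = x * a := by
    intro a ha x
    have := top (Subgroup.centralizer {a}) (fun b hb => by
      rw [SetLike.mem_coe, Subgroup.mem_centralizer_iff]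
      intro y hy
      rw [mem_singleton_iff] at hy
      subst hy
      exact h y ha b hb) x
    rw [Subgroup.mem_centralizer_iff] at this
    exact this a rfl
  have h2 := top (Subgroup.center G) (fun a ha => by
    rw [SetLike.mem_coe, Subgroup.mem_center_iff]
    intro x
    exact (h1 a ha x).symm) b
  rw [Subgroup.mem_center_iff] at h2
  exact h2 a

lemma image_mem_nhds_of_loc (c : V → G) (hloc : IsLocalDiffeomorphAt 𝓘(ℂ, V) 𝓘(ℂ, 𝔤) ω c 0)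
    (r : ℝ) (hr : 0 < r) : c '' Metric.ball (0 : V) r ∈ 𝓝 (c 0) := by
    obtain ⟨Φ, hΦ1, hΦ2⟩ := hloc
    have h1 : Φ.toOpenPartialHomeomorph '' (Metric.ball (0 : V) r ∩ Φ.source) ∈
        𝓝 (Φ.toOpenPartialHomeomorph 0) :=
      Φ.toOpenPartialHomeomorph.image_mem_nhds hΦ1
        (inter_mem (Metric.ball_mem_nhds _ hr) (Φ.open_source.mem_nhds hΦ1))
    have h2 : Φ.toOpenPartialHomeomorph 0 = c 0 := (hΦ2 hΦ1).symm
    rw [h2] at h1
    refine mem_of_superset h1 ?_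
    rintro _ ⟨x, ⟨hx1, hx2⟩, rfl⟩
    exact ⟨x, hx1, hΦ2 hx2⟩

/-- A local biholomorphism with constant logarithmic derivative forces `G` to be commutative. -/
lemma commutative_of_const [ConnectedSpace G] (c : V → G) (U : Set V) (hU : U ∈ 𝓝 (0 : V))
    (hc : ∀ v ∈ U, ContMDiffAt 𝓘(ℂ, V) 𝓘(ℂ, 𝔤) 1 c v) (L : V →L[ℂ] 𝔤)
    (hL : ∀ v ∈ U, mc 𝔤 c v = L) (hloc : ∀ r : ℝ, 0 < r → c '' Metric.ball (0 : V) r ∈ 𝓝 (c 0))
    (a b : G) : a * b = b * a := by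
  have : IsTopologicalGroup G := topologicalGroup_of_lieGroup 𝓘(ℂ, 𝔤) ω
  obtain ⟨r, hr, hcr⟩ := local_hom c U hU hc L hL
  have him := hloc r hr
  refine commutative_of_nhds ((fun x => c 0 * x) ⁻¹' (c '' Metric.ball (0 : V) r)) ?_ ?_ a b
  · apply (continuous_const_mul (c 0)).continuousAt.preimage_mem_nhds
    rw [mul_one]
    exact him
  · rintro x ⟨v, hv, hx⟩ y ⟨w, hw, hy⟩
    have hx' : x = (c 0)⁻¹ * c v := by
      have : c v = c 0 * x := hx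
      rw [this, inv_mul_cancel_left]
    have hy' : y = (c 0)⁻¹ * c w := by
      have : c w = c 0 * y := hy
      rw [this, inv_mul_cancel_left]
    have e1 := hcr v hv w hw
    have e2 := hcr w hw v hv
    rw [mul_inv_eq_iff_eq_mul] at e1 e2
    rw [add_comm, e1] at e2
    rw [hx', hy']
    have e3 : c v * (c 0)⁻¹ * c w = c w * (c 0)⁻¹ * c v := e2.symm
    calc (c 0)⁻¹ * c v * ((c 0)⁻¹ * c w) = (c 0)⁻¹ * (c v * (c 0)⁻¹ * c w) := by group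
      _ = (c 0)⁻¹ * (c w * (c 0)⁻¹ * c v) := by rw [e3]
      _ = (c 0)⁻¹ * c w * ((c 0)⁻¹ * c v) := by group

lemma proj_add' {Λ : AddSubgroup V} {l : V} (hl : l ∈ Λ) (v : V) :
    Torus.proj Λ (v + l) = Torus.proj Λ v := by
  rw [Torus.proj_eq_iff]
  have : v - (v + l) = -l := by abel
  rw [this]
  exact neg_mem hl

/-- If a complex torus has a holomorphic `(G, G)`-structure, `G` a connected complex Lie group,
then `G` is commutative. -/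
theorem commutative_of_gx [ConnectedSpace G] {Λ : AddSubgroup V} [DiscreteTopology Λ]
    [CompactSpace (Torus Λ)] (𝒜 : GXStructure G 𝔤 G V (Torus Λ)) (a b : G) : a * b = b * a := by
  have : IsTopologicalGroup G := topologicalGroup_of_lieGroup 𝓘(ℂ, 𝔤) ω
  choose c hc hm using 𝒜.cover
  let C : Torus Λ → V → G := fun m u => (c m).2 (Torus.proj Λ u)
  have hdiff : ∀ (m : Torus Λ) (v : V), Torus.proj Λ v ∈ (c m).1 →
      ContMDiffAt 𝓘(ℂ, V) 𝓘(ℂ, 𝔤) ω (C m) v := fun m v h =>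
    ContMDiffAt.comp v (𝒜.biholomorphic (c m) (hc m) ⟨_, h⟩).contMDiffAt
      (Pool.Agent.Y167.Cartan.contMDiff_proj Λ v)
  let F : V → V → 𝔤 := fun w v => mc 𝔤 (C (Torus.proj Λ v)) v w
  have hloc : ∀ (m : Torus Λ) (v w : V), Torus.proj Λ v ∈ (c m).1 →
      F w v = mc 𝔤 (C m) v w := by
    intro m v w hv
    obtain ⟨g, hg⟩ := 𝒜.transition (c m) (hc m) (c (Torus.proj Λ v)) (hc _) (Torus.proj Λ v)
      ⟨hv, hm _⟩
    have h0 : ∀ᶠ u in 𝓝 v, C (Torus.proj Λ v) u = g * C m u :=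
      (Torus.continuous_proj Λ).continuousAt.eventually hg
    change mc 𝔤 (C (Torus.proj Λ v)) v w = _
    rw [mc_congr (C m) (C (Torus.proj Λ v)) v g h0]
  have hper : ∀ w v, ∀ l ∈ Λ, F w (v + l) = F w v := by
    intro w v l hl
    have h1 : (fun u => C (Torus.proj Λ v) (u + l)) = C (Torus.proj Λ v) := by
      ext u
      simp only [C, proj_add' hl]
    change mc 𝔤 (C (Torus.proj Λ (v + l))) (v + l) w = mc 𝔤 (C (Torus.proj Λ v)) v w
    rw [proj_add' hl, ← mc_shift, h1]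
  have hnear : ∀ v : V, ∀ᶠ u in 𝓝 v, Torus.proj Λ u ∈ (c (Torus.proj Λ v)).1 := fun v =>
    (Torus.continuous_proj Λ).continuousAt.preimage_mem_nhds
      ((𝒜.isOpen _ (hc _)).mem_nhds (hm _))
  have hFd : ∀ w, Differentiable ℂ (F w) := by
    intro w v
    have h1 : F w =ᶠ[𝓝 v] fun u => mc 𝔤 (C (Torus.proj Λ v)) u w := by
      filter_upwards [hnear v] with u hu
      exact hloc _ u w hu
    exact (differentiableAt_mc _ v (hdiff _ v (hm _)) w).congr_of_eventuallyEq h1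
  have hconst : ∀ w u v, F w u = F w v := fun w u v => const_of_periodic Λ (hFd w) (hper w) u v
  refine commutative_of_const (C (Torus.proj Λ 0)) _ (hnear 0)
    (fun v hv => (hdiff _ v hv).of_le le_top)
    (mc 𝔤 (C (Torus.proj Λ 0)) 0) (fun v hv => ?_) ?_ a b
  · ext w
    rw [← hloc _ v w hv, ← hloc _ 0 w (hm _)]
    exact hconst w v 0
  · exact image_mem_nhds_of_loc _ ((isLocalDiffeomorph_proj Λ 0).comp 𝓘(ℂ, 𝔤) G
      (𝒜.biholomorphic (c (Torus.proj Λ 0)) (hc _) ⟨_, hm _⟩))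

end Pool.Agent.Y167.Cartan
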