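import Pool.Agent.Y167.Cartan.Param
import Pool.Agent.Y167.Cartan.Flat

/-! # `(G, G)`-structures on complex tori, for commutative `G` -/

set_option autoImplicit false
set_option linter.unusedSectionVars false

open scoped Manifold ContDiff Topology
open Set Filter Pool.Agent.H194R3.Cartan Pool.Agent.W490.Flat VectorField

namespace Pool.Agent.Y167.Cartan

section

variable {V : Type} [NormedAddCommGroup V] [NormedSpace ℂ V]
  {𝔤 : Type} [NormedAddCommGroup 𝔤] [NormedSpace ℂ 𝔤]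
  (Λ : AddSubgroup V) [DiscreteTopology Λ]

/-- the changes of charts of the torus are locally translations -/
lemma torus_transition (q q' m : Torus Λ) (hm : m ∈ (chartAt V q).source)
    (hm' : m ∈ (chartAt V q').source) :
    ∀ᶠ x in 𝓝 m, chartAt V q' x = chartAt V q x + (chartAt V q' m - chartAt V q m) := by
  obtain ⟨v, rfl⟩ := Torus.proj_surjective Λ m
  obtain ⟨w, hw⟩ := Torus.key Λ (chart_mem_atlas V q) hm
  obtain ⟨w', hw'⟩ := Torus.key Λ (chart_mem_atlas V q') hm'
  have h1 : chartAt V q (Torus.proj Λ v) = v + w := hw.self_of_nhds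
  have h1' : chartAt V q' (Torus.proj Λ v) = v + w' := hw'.self_of_nhds
  rw [h1, h1']
  have h3 : Filter.map (Torus.proj Λ) (𝓝 v) = 𝓝 (Torus.proj Λ v) :=
    (Torus.isLocalHomeomorph Λ).map_nhds_eq v
  rw [← h3, Filter.eventually_map]
  filter_upwards [hw, hw'] with u hu hu'
  rw [hu, hu']
  abel

/-- the charts of the torus -/
noncomputable def chartPD (q : Torus Λ) :
    PartialDiffeomorph 𝓘(ℂ, V) 𝓘(ℂ, V) (Torus Λ) V ω where
  toPartialEquiv := (chartAt V q).toPartialEquiv
  open_source := (chartAt V q).open_source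
  open_target := (chartAt V q).open_target
  contMDiffOn_toFun := contMDiffOn_chart
  contMDiffOn_invFun := contMDiffOn_chart_symm

/-- an affine isomorphism -/
noncomputable def affPD (L : V ≃L[ℂ] 𝔤) (a : V) :
    PartialDiffeomorph 𝓘(ℂ, V) 𝓘(ℂ, 𝔤) V 𝔤 ω where
  toFun := fun z => L (z - a)
  invFun := fun w => L.symm w + a
  source := univ
  target := univ
  map_source' := fun _ _ => mem_univ _
  map_target' := fun _ _ => mem_univ _
  left_inv' := fun z _ => by simp
  right_inv' := fun w _ => by simp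
  open_source := isOpen_univ
  open_target := isOpen_univ
  contMDiffOn_toFun := by
    have h : ContDiff ℂ ω (fun z : V => L (z - a)) :=
      L.contDiff.comp (contDiff_id.sub contDiff_const)
    exact h.contMDiff.contMDiffOn
  contMDiffOn_invFun := by
    have h : ContDiff ℂ ω (fun w : 𝔤 => L.symm w + a) := L.symm.contDiff.add contDiff_const
    exact h.contMDiff.contMDiffOn

end

section

variable {𝔤 : Type} [NormedAddCommGroup 𝔤] [NormedSpace ℂ 𝔤] [FiniteDimensional ℂ 𝔤]
  {G : Type} [TopologicalSpace G] [ChartedSpace 𝔤 G] [Group G]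
  [LieGroup 𝓘(ℂ, 𝔤) ω G]
  {V : Type} [NormedAddCommGroup V] [NormedSpace ℂ V] [FiniteDimensional ℂ V]
  (Λ : AddSubgroup V) [DiscreteTopology Λ]

theorem gxStructure_torus (hdim : Module.finrank ℂ V = Module.finrank ℂ 𝔤)
    (h0 : ∀ v w : LieAlg 𝔤 G, ⁅v, w⁆ = 0) : Nonempty (GXStructure G 𝔤 G V (Torus Λ)) := by
  obtain ⟨D, r, hr, hball, hhom⟩ := exists_localParam (G := G) h0
  let L : V ≃L[ℂ] 𝔤 := ContinuousLinearEquiv.ofFinrankEq hdim
  let e : Torus Λ → OpenPartialHomeomorph (Torus Λ) V := fun q => chartAt V q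
  let dom : Torus Λ → Set (Torus Λ) := fun q =>
    (e q).source ∩ (e q) ⁻¹' {z | L (z - e q q) ∈ Metric.ball (0 : 𝔤) (r / 2)}
  let f : Torus Λ → Torus Λ → G := fun q x => D (L (e q x - e q q))
  have hdomo : ∀ q, IsOpen (dom q) := fun q =>
    (e q).isOpen_inter_preimage
      (Metric.isOpen_ball.preimage (L.continuous.comp (continuous_id.sub continuous_const)))
  have hsub : Metric.ball (0 : 𝔤) (r / 2) ⊆ Metric.ball (0 : 𝔤) r :=
    Metric.ball_subset_ball (by linarith)
  refine ⟨⟨Set.range fun q => (dom q, f q), ?_, ?_, ?_, ?_, ?_⟩⟩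
  · rintro _ ⟨q, rfl⟩
    exact hdomo q
  · intro m
    refine ⟨_, ⟨m, rfl⟩, mem_chart_source V m, ?_⟩
    change L (e m m - e m m) ∈ Metric.ball (0 : 𝔤) (r / 2)
    rw [sub_self, map_zero]
    exact Metric.mem_ball_self (by linarith)
  · rintro _ ⟨q, rfl⟩ x hx y hy hxy
    have h1 : L (e q x - e q q) = L (e q y - e q q) :=
      D.injOn (hball (hsub hx.2)) (hball (hsub hy.2)) hxy
    exact (e q).injOn hx.1 hy.1 (sub_left_injective (L.injective h1))
  · rintro _ ⟨q, rfl⟩ ⟨x, hx⟩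
    have a1 : IsLocalDiffeomorphAt 𝓘(ℂ, V) 𝓘(ℂ, V) ω (e q) x :=
      ⟨chartPD Λ q, hx.1, fun _ _ => rfl⟩
    have a2 : IsLocalDiffeomorphAt 𝓘(ℂ, V) 𝓘(ℂ, 𝔤) ω (fun z => L (z - e q q)) (e q x) :=
      ⟨affPD L (e q q), mem_univ _, fun _ _ => rfl⟩
    have a3 : IsLocalDiffeomorphAt 𝓘(ℂ, 𝔤) 𝓘(ℂ, 𝔤) ω D (L (e q x - e q q)) :=
      ⟨D, hball (hsub hx.2), fun _ _ => rfl⟩
    have a4 : IsLocalDiffeomorphAt 𝓘(ℂ, V) 𝓘(ℂ, 𝔤) ω ((fun z => L (z - e q q)) ∘ (e q)) x :=
      a1.comp _ _ a2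
    exact a4.comp _ _ a3
  · rintro _ ⟨q, rfl⟩ _ ⟨q', rfl⟩ m ⟨hm, hm'⟩
    set h : 𝔤 := L (e q' m - e q' q') - L (e q m - e q q) with hh
    have hhr : h ∈ Metric.ball (0 : 𝔤) r := by
      rw [mem_ball_zero_iff]
      have h1 : ‖L (e q' m - e q' q')‖ < r / 2 := by
        have := hm'.2
        exact mem_ball_zero_iff.1 this
      have h2 : ‖L (e q m - e q q)‖ < r / 2 := by
        have := hm.2
        exact mem_ball_zero_iff.1 this
      have h3 := norm_sub_le (L (e q' m - e q' q')) (L (e q m - e q q))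
      linarith
    refine ⟨D h * (D 0)⁻¹, ?_⟩
    filter_upwards [torus_transition Λ q q' m hm.1 hm'.1, (hdomo q).mem_nhds hm] with x hx hx2
    have h1 : L (e q' x - e q' q') = L (e q x - e q q) + h := by
      have hx' : e q' x = e q x + (e q' m - e q m) := hx
      rw [hx', hh, ← map_sub, ← map_add]
      congr 1
      abel
    change D (L (e q' x - e q' q')) = (D h * (D 0)⁻¹) * D (L (e q x - e q q))
    rw [h1, ← hhom _ (hsub hx2.2) _ hhr, inv_mul_cancel_right]

variable [ConnectedSpace G] [CompactSpace (Torus Λ)]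

/-- A complex torus carries a holomorphic `(G, G)`-structure if and only if `G` is commutative. -/
theorem gxStructure_iff (hdim : Module.finrank ℂ V = Module.finrank ℂ 𝔤) :
    Nonempty (GXStructure G 𝔤 G V (Torus Λ)) ↔ ∀ a b : G, a * b = b * a := by
  have : CompleteSpace 𝔤 := FiniteDimensional.complete ℂ 𝔤
  exact ⟨fun ⟨S⟩ => commutative_of_gx S,
    fun hcomm => gxStructure_torus Λ hdim (fun v w => bracket_eq_zero_of_comm hcomm v w)⟩

end

end Pool.Agent.Y167.Cartan
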