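import Pool.Agent.H194R3.Cartan.Main

/-! # Holomorphic maps from the Riemann sphere to a complex Lie group are constant

The logarithmic derivative `f⁻¹ df` is a holomorphic 1-form on the Riemann sphere with values in
the Lie algebra, hence it vanishes. So no complex Lie group has the Riemann sphere as a factor. -/

set_option autoImplicit false
set_option linter.unusedSectionVars false

open scoped Manifold ContDiff Topology
open Set Filter Pool.Agent.H194R3.Cartan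

namespace Pool.Agent.Y167.Cartan

variable {𝔤 : Type} [NormedAddCommGroup 𝔤] [NormedSpace ℂ 𝔤]
  {G : Type} [TopologicalSpace G] [ChartedSpace 𝔤 G] [Group G] [LieGroup 𝓘(ℂ, 𝔤) ω G]

/-- the chart at `1` -/
noncomputable def phi (G : Type) [TopologicalSpace G] [ChartedSpace 𝔤 G] [Group G] : G → 𝔤 :=
  extChartAt 𝓘(ℂ, 𝔤) (1 : G)

/-- the logarithmic derivative -/
noncomputable def logDer (g : ℂ → G) (z : ℂ) : 𝔤 :=
  deriv (fun w => phi (𝔤 := 𝔤) G ((g z)⁻¹ * g w)) z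

lemma contMDiffAt_phi : ContMDiffAt 𝓘(ℂ, 𝔤) 𝓘(ℂ, 𝔤) ω (phi (𝔤 := 𝔤) G) 1 := contMDiffAt_extChartAt

lemma contDiffAt_two (g : ℂ → G) (hg : ContMDiff 𝓘(ℂ, ℂ) 𝓘(ℂ, 𝔤) ω g) (z₀ : ℂ) :
    ContDiffAt ℂ ω (fun p : ℂ × ℂ => phi (𝔤 := 𝔤) G ((g p.1)⁻¹ * g p.2)) (z₀, z₀) := by
  have h1 : ContMDiff 𝓘(ℂ, ℂ × ℂ) 𝓘(ℂ, 𝔤) ω (fun p : ℂ × ℂ => (g p.1)⁻¹ * g p.2) :=
    (hg.comp contDiff_fst.contMDiff).inv.mul (hg.comp contDiff_snd.contMDiff)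
  rw [← contMDiffAt_iff_contDiffAt]
  refine ContMDiffAt.comp (z₀, z₀) (g := phi (𝔤 := 𝔤) G) ?_ h1.contMDiffAt
  simp only [inv_mul_cancel]
  exact contMDiffAt_phi

lemma differentiable_logDer (g : ℂ → G) (hg : ContMDiff 𝓘(ℂ, ℂ) 𝓘(ℂ, 𝔤) ω g) :
    Differentiable ℂ (logDer (𝔤 := 𝔤) g) := by
  intro z₀
  set P : ℂ × ℂ → 𝔤 := fun p => phi (𝔤 := 𝔤) G ((g p.1)⁻¹ * g p.2) with hP
  have h1 : ContDiffAt ℂ ω P (z₀, z₀) := contDiffAt_two g hg z₀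
  have h2 : ContDiffAt ℂ 1 (fderiv ℂ P) (z₀, z₀) := h1.fderiv_right (by simp)
  have h3 : ContDiffAt ℂ 1 (fun z => fderiv ℂ P (z, z) (0, 1)) z₀ :=
    (ContDiffAt.comp z₀ (g := fderiv ℂ P) (f := fun z => (z, z)) h2
      (contDiffAt_id.prodMk contDiffAt_id)).clm_apply contDiffAt_const
  have h4 : ∀ᶠ z in 𝓝 z₀, logDer (𝔤 := 𝔤) g z = fderiv ℂ P (z, z) (0, 1) := by
    have hc : ContinuousAt (fun z : ℂ => (z, z)) z₀ := by fun_prop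
    filter_upwards [hc.eventually (h1.eventually (by simp))] with z hz
    have h5 : HasFDerivAt P (fderiv ℂ P (z, z)) (z, z) :=
      (hz.differentiableAt (by simp)).hasFDerivAt
    have h6 : HasDerivAt (fun w : ℂ => (z, w)) ((0 : ℂ), (1 : ℂ)) z :=
      (hasDerivAt_const z z).prodMk (hasDerivAt_id z)
    exact (h5.comp_hasDerivAt z h6).deriv
  exact (h3.differentiableAt (by simp)).congr_of_eventuallyEq h4

lemma differentiableAt_one (g : ℂ → G) (hg : ContMDiff 𝓘(ℂ, ℂ) 𝓘(ℂ, 𝔤) ω g) (z : ℂ) :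
    DifferentiableAt ℂ (fun w => phi (𝔤 := 𝔤) G ((g z)⁻¹ * g w)) z := by
  have h1 := (contDiffAt_two (𝔤 := 𝔤) g hg z).differentiableAt (by simp)
  have h6 : DifferentiableAt ℂ (fun w : ℂ => (z, w)) z := by fun_prop
  exact DifferentiableAt.comp z (g := fun p : ℂ × ℂ => phi (𝔤 := 𝔤) G ((g p.1)⁻¹ * g p.2)) h1 h6

lemma logDer_inv (g g' : ℂ → G)
    (hg' : ContMDiff 𝓘(ℂ, ℂ) 𝓘(ℂ, 𝔤) ω g') (h : ∀ z, z ≠ 0 → g z = g' z⁻¹) (z : ℂ) (hz : z ≠ 0) :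
    logDer (𝔤 := 𝔤) g z = (-(z ^ 2)⁻¹) • logDer (𝔤 := 𝔤) g' z⁻¹ := by
  have h1 := (differentiableAt_one (𝔤 := 𝔤) g' hg' z⁻¹).hasDerivAt
  have h2 := h1.scomp z (hasDerivAt_inv hz)
  have h3 : (fun w => phi (𝔤 := 𝔤) G ((g z)⁻¹ * g w)) =ᶠ[𝓝 z]
      ((fun w => phi (𝔤 := 𝔤) G ((g' z⁻¹)⁻¹ * g' w)) ∘ fun w => w⁻¹) := by
    filter_upwards [isOpen_ne.mem_nhds hz] with w hw
    simp only [Function.comp_apply]
    rw [h z hz, h w hw]
  unfold logDer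
  rw [h3.deriv_eq]
  exact h2.deriv

lemma logDer_eq_zero (g g' : ℂ → G) (hg : ContMDiff 𝓘(ℂ, ℂ) 𝓘(ℂ, 𝔤) ω g)
    (hg' : ContMDiff 𝓘(ℂ, ℂ) 𝓘(ℂ, 𝔤) ω g') (h : ∀ z, z ≠ 0 → g z = g' z⁻¹) (z : ℂ) :
    logDer (𝔤 := 𝔤) g z = 0 := by
  refine (differentiable_logDer g hg).apply_eq_of_tendsto_cocompact z ?_
  rw [← Metric.cobounded_eq_cocompact]
  have h1 : Tendsto (fun z : ℂ => z⁻¹) (Bornology.cobounded ℂ) (𝓝 0) := tendsto_inv₀_cobounded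
  have h2 : Tendsto (fun z : ℂ => logDer (𝔤 := 𝔤) g' z⁻¹) (Bornology.cobounded ℂ)
      (𝓝 (logDer (𝔤 := 𝔤) g' 0)) :=
    ((differentiable_logDer g' hg').continuous.tendsto 0).comp h1
  have h3 : Tendsto (fun z : ℂ => -(z ^ 2)⁻¹) (Bornology.cobounded ℂ) (𝓝 0) := by
    have := (h1.pow 2).neg
    simpa using this
  have h4 := h3.smul h2
  rw [zero_smul] at h4
  refine h4.congr' ?_
  have h5 : ({0} : Set ℂ)ᶜ ∈ Bornology.cobounded ℂ := Bornology.isBounded_singleton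
  filter_upwards [h5] with z hz
  exact (logDer_inv g g' hg' h z hz).symm

/-- A curve with zero logarithmic derivative is constant. -/
lemma const_of_logDer (g : ℂ → G) (hg : ContMDiff 𝓘(ℂ, ℂ) 𝓘(ℂ, 𝔤) ω g)
    (h : ∀ z, logDer (𝔤 := 𝔤) g z = 0) (z w : ℂ) : g z = g w := by
  refine IsLocallyConstant.apply_eq_of_preconnectedSpace (f := g) ?_ z w
  rw [IsLocallyConstant.iff_eventually_eq]
  intro z₀
  let ψ : G → 𝔤 := fun y => extChartAt 𝓘(ℂ, 𝔤) (g z₀) y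
  -- a ball mapped to the chart domain
  have hsrc : g ⁻¹' (chartAt 𝔤 (g z₀)).source ∈ 𝓝 z₀ :=
    hg.continuous.continuousAt.preimage_mem_nhds
      ((chartAt 𝔤 (g z₀)).open_source.mem_nhds (mem_chart_source 𝔤 _))
  obtain ⟨ε, hε, hball⟩ := Metric.mem_nhds_iff.1 hsrc
  have hψd : ∀ z ∈ Metric.ball z₀ ε, HasDerivAt (fun w => ψ (g w)) (0 : 𝔤) z := by
    intro z hz
    have h1 : ContMDiffAt 𝓘(ℂ, 𝔤) 𝓘(ℂ, 𝔤) ω ψ (g z) := contMDiffAt_extChartAt' (hball hz)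
    have h2 : ContMDiff 𝓘(ℂ, 𝔤) 𝓘(ℂ, 𝔤) ω (fun y : G => g z * y) :=
      contMDiff_mul_left (I := 𝓘(ℂ, 𝔤)) (n := ω)
    have h3 : ContMDiffAt 𝓘(ℂ, 𝔤) 𝓘(ℂ, 𝔤) ω (extChartAt 𝓘(ℂ, 𝔤) (1 : G)).symm
        (phi (𝔤 := 𝔤) G 1) := by
      have h4 : ContMDiffOn 𝓘(ℂ, 𝔤) 𝓘(ℂ, 𝔤) ω (extChartAt 𝓘(ℂ, 𝔤) (1 : G)).symm
        (extChartAt 𝓘(ℂ, 𝔤) (1 : G)).target := contMDiffOn_extChartAt_symm _
      exact h4.contMDiffAt (extChartAt_target_mem_nhds (1 : G))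
    have h5 : (extChartAt 𝓘(ℂ, 𝔤) (1 : G)).symm (phi (𝔤 := 𝔤) G 1) = 1 := extChartAt_to_inv (1 : G)
    have h6 : ContMDiffAt 𝓘(ℂ, 𝔤) 𝓘(ℂ, 𝔤) ω
        (fun v : 𝔤 => ψ (g z * (extChartAt 𝓘(ℂ, 𝔤) (1 : G)).symm v)) (phi (𝔤 := 𝔤) G 1) := by
      refine ContMDiffAt.comp (phi (𝔤 := 𝔤) G 1) (g := ψ) ?_ (h2.contMDiffAt.comp _ h3)
      rw [h5, mul_one]
      exact h1
    have h7 : HasFDerivAt (fun v : 𝔤 => ψ (g z * (extChartAt 𝓘(ℂ, 𝔤) (1 : G)).symm v))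
        (fderiv ℂ (fun v : 𝔤 => ψ (g z * (extChartAt 𝓘(ℂ, 𝔤) (1 : G)).symm v))
          (phi (𝔤 := 𝔤) G ((g z)⁻¹ * g z))) (phi (𝔤 := 𝔤) G ((g z)⁻¹ * g z)) := by
      rw [inv_mul_cancel]
      exact ((contMDiffAt_iff_contDiffAt.1 h6).differentiableAt (by simp)).hasFDerivAt
    have h8 : HasDerivAt (fun w => phi (𝔤 := 𝔤) G ((g z)⁻¹ * g w)) (0 : 𝔤) z := by
      have := (differentiableAt_one (𝔤 := 𝔤) g hg z).hasDerivAt
      have h9 := h z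
      unfold logDer at h9
      rwa [h9] at this
    have h9 := h7.comp_hasDerivAt z h8
    rw [map_zero] at h9
    refine h9.congr_of_eventuallyEq ?_
    have hc : Continuous (fun w => (g z)⁻¹ * g w) := by
      have : IsTopologicalGroup G := topologicalGroup_of_lieGroup 𝓘(ℂ, 𝔤) ω
      exact continuous_const.mul hg.continuous
    have h10 : ∀ᶠ w in 𝓝 z, (g z)⁻¹ * g w ∈ (extChartAt 𝓘(ℂ, 𝔤) (1 : G)).source := by
      apply hc.continuousAt.preimage_mem_nhds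
      simp only [inv_mul_cancel]
      exact extChartAt_source_mem_nhds (1 : G)
    filter_upwards [h10] with w hw
    simp only [Function.comp_apply]
    have h11 : (extChartAt 𝓘(ℂ, 𝔤) (1 : G)).symm (phi (𝔤 := 𝔤) G ((g z)⁻¹ * g w)) =
        (g z)⁻¹ * g w := (extChartAt 𝓘(ℂ, 𝔤) (1 : G)).left_inv hw
    rw [h11, mul_inv_cancel_left]
  obtain ⟨a, ha⟩ := Metric.isOpen_ball.exists_is_const_of_deriv_eq_zero
    (convex_ball z₀ ε).isPreconnected (f := fun w => ψ (g w))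
    (fun z hz => (hψd z hz).differentiableAt.differentiableWithinAt)
    (fun z hz => (hψd z hz).deriv)
  filter_upwards [Metric.ball_mem_nhds z₀ hε] with z hz
  have h1 : ψ (g z) = ψ (g z₀) := (ha z hz).trans (ha z₀ (Metric.mem_ball_self hε)).symm
  refine (extChartAt 𝓘(ℂ, 𝔤) (g z₀)).injOn ?_ ?_ h1
  · rw [extChartAt_source]
    exact hball hz
  · exact mem_extChartAt_source (g z₀)

lemma contMDiff_coe : ContMDiff 𝓘(ℂ, ℂ) 𝓘(ℂ, ℂ) ω P1.coe := by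
  have h1 : P1.chartZero ∈ IsManifold.maximalAtlas 𝓘(ℂ, ℂ) ω P1 :=
    IsManifold.subset_maximalAtlas (by
      change P1.chartZero ∈ ({P1.chartZero, P1.chartInf} : Set _)
      simp)
  have h2 := contMDiffOn_symm_of_mem_maximalAtlas h1
  rw [P1.chartZero_target, contMDiffOn_univ] at h2
  have h3 : (P1.chartZero.symm : ℂ → P1) = P1.coe := by
    ext z
    exact P1.chartZero_symm z
  rwa [h3] at h2

lemma contMDiff_inversion_coe :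
    ContMDiff 𝓘(ℂ, ℂ) 𝓘(ℂ, ℂ) ω (fun z => P1.inversion (P1.coe z)) := by
  have h1 : P1.chartInf ∈ IsManifold.maximalAtlas 𝓘(ℂ, ℂ) ω P1 :=
    IsManifold.subset_maximalAtlas (by
      change P1.chartInf ∈ ({P1.chartZero, P1.chartInf} : Set _)
      simp)
  have h2 := contMDiffOn_symm_of_mem_maximalAtlas h1
  have h4 : P1.chartInf.target = univ := by
    simp [P1.chartInf, P1.chartZero_target]
  rw [h4, contMDiffOn_univ] at h2
  have h3 : (P1.chartInf.symm : ℂ → P1) = fun z => P1.inversion (P1.coe z) := by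
    ext z
    exact P1.chartInf_symm z
  rwa [h3] at h2

/-- A holomorphic map from the Riemann sphere to a complex Lie group is constant (on the complex
plane). -/
theorem const_of_P1 (f : P1 → G) (hf : ContMDiff 𝓘(ℂ, ℂ) 𝓘(ℂ, 𝔤) ω f) (z w : ℂ) :
    f (P1.coe z) = f (P1.coe w) := by
  have h1 : ContMDiff 𝓘(ℂ, ℂ) 𝓘(ℂ, 𝔤) ω (fun z => f (P1.coe z)) := hf.comp contMDiff_coe
  have h2 : ContMDiff 𝓘(ℂ, ℂ) 𝓘(ℂ, 𝔤) ω (fun z => f (P1.inversion (P1.coe z))) :=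
    hf.comp contMDiff_inversion_coe
  refine const_of_logDer (𝔤 := 𝔤) (fun z => f (P1.coe z)) h1 ?_ z w
  refine logDer_eq_zero _ _ h1 h2 ?_
  intro z hz
  rw [P1.inversion_of_ne (inv_ne_zero hz), inv_inv]

/-- No complex Lie group is biholomorphic to the product of the Riemann sphere with a complex
manifold. -/
theorem not_hasP1Factor : ¬ HasP1Factor 𝔤 G := by
  rintro ⟨𝔶, _, _, Y, _, _, _, ⟨Φ⟩⟩
  obtain ⟨y₀⟩ : Nonempty Y := ⟨(Φ 1).2⟩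
  have hf : ContMDiff 𝓘(ℂ, ℂ) 𝓘(ℂ, 𝔤) ω (fun c : P1 => Φ.symm (c, y₀)) :=
    Φ.symm.contMDiff.comp (contMDiff_id.prodMk contMDiff_const)
  have h1 : Φ.symm (P1.coe 0, y₀) = Φ.symm (P1.coe 1, y₀) :=
    const_of_P1 (𝔤 := 𝔤) (fun c : P1 => Φ.symm (c, y₀)) hf 0 1
  have h2 : (P1.coe 0, y₀) = (P1.coe 1, y₀) := Φ.symm.injective h1
  have h3 : P1.coe 0 = P1.coe 1 := congrArg Prod.fst h2
  have h4 : (0 : ℂ) = 1 := P1.isOpenEmbedding_coe.injective h3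
  exact zero_ne_one h4

end Pool.Agent.Y167.Cartan
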