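import Pool.Agent.Y167.Cartan.Trans
import Pool.Agent.Y167.Cartan.NoP1

/-! # The geometry of a complex torus modelled on an arbitrary complex Lie group -/

set_option autoImplicit false
set_option linter.unusedSectionVars false

open scoped Manifold ContDiff Topology
open Set Filter Pool.Agent.H194R3.Cartan

namespace Pool.Agent.Y167.Cartan

section Group

variable {𝔤 : Type} [NormedAddCommGroup 𝔤] [NormedSpace ℂ 𝔤]
  {G : Type} [TopologicalSpace G] [ChartedSpace 𝔤 G] [Group G] [LieGroup 𝓘(ℂ, 𝔤) ω G]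

/-- the inclusion of the trivial subgroup into `G` -/
def trivialSub (G : Type) [Group G] : PUnit →* G := 1

lemma isClosedComplexSubgroup_trivialSub [T2Space G] :
    IsClosedComplexSubgroup 𝔤 PUnit (trivialSub G) where
  holomorphic := contMDiff_const
  isClosedEmbedding := by
    refine Topology.IsClosedEmbedding.of_continuous_injective_isClosedMap continuous_const ?_ ?_
    · intro a b _; rfl
    · intro s hs
      exact (s.toFinite.image _).isClosed
  injective_mfderiv := by
    intro a b _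
    exact Subsingleton.elim (α := PUnit) a b

lemma isHomogeneousSpace_self :
    IsHomogeneousSpace (G := G) (X := G) 𝔤 𝔤 (trivialSub G) (1 : G) where
  holomorphic := contMDiff_mul 𝓘(ℂ, 𝔤) ω
  transitive := fun x => ⟨x, by simp⟩
  stabilizer := by
    intro g
    simp only [smul_eq_mul, mul_one, MonoidHom.mem_range]
    constructor
    · rintro rfl
      exact ⟨1, rfl⟩
    · rintro ⟨x, rfl⟩
      rfl
  submersion := by
    have h : (fun g : G => g • (1 : G)) = id := by
      ext g; simp
    rw [h, mfderiv_id]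
    exact fun v => ⟨v, rfl⟩

end Group

section Torus

variable {V : Type} [NormedAddCommGroup V] [NormedSpace ℂ V] [FiniteDimensional ℂ V]

/-- a coordinate function -/
noncomputable def cc (i : Fin (Module.finrank ℂ V)) : V →L[ℂ] ℂ :=
  LinearMap.toContinuousLinearMap ((Module.finBasis ℂ V).coord i)

/-- the standard symplectic form of `V` in coordinates -/
noncomputable def OmV : V →L[ℝ] V →L[ℝ] ℝ :=
  ∑ i : Fin (Module.finrank ℂ V),
    ((ContinuousLinearMap.mul ℝ ℝ).bilinearComp
        (Complex.reCLM.comp ((cc (V := V) i).restrictScalars ℝ))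
        (Complex.imCLM.comp ((cc (V := V) i).restrictScalars ℝ)) -
      (ContinuousLinearMap.mul ℝ ℝ).bilinearComp
        (Complex.imCLM.comp ((cc (V := V) i).restrictScalars ℝ))
        (Complex.reCLM.comp ((cc (V := V) i).restrictScalars ℝ)))

lemma OmV_apply (v w : V) : OmV v w =
    ∑ i : Fin (Module.finrank ℂ V),
      ((cc i v).re * (cc i w).im - (cc i v).im * (cc i w).re) := by
  simp only [OmV, sum_apply]
  rfl

variable (Λ : AddSubgroup V) [DiscreteTopology Λ]

lemma formInChart_torusV (B : V →L[ℝ] V →L[ℝ] ℝ) (p : Torus Λ) (y : V) :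
    formInChart (V := V) (M := Torus Λ) (fun _ => B) p y = B := by
  unfold formInChart
  simp only [Torus.mfderiv_extChartAt_symm]
  ext v w
  rfl

/-- the flat Kähler form of the torus -/
noncomputable def kahlerTorusV : KahlerForm V (Torus Λ) where
  form := fun _ => OmV (V := V)
  alternating := by
    intro p v
    have h : ∀ v : V, OmV v v = 0 := by
      intro v
      rw [OmV_apply]
      exact Finset.sum_eq_zero fun i _ => by ring
    exact h v
  type_one_one := by
    intro p v w
    have h : ∀ v w : V, OmV (Complex.I • v) (Complex.I • w) = OmV v w := by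
      intro v w
      rw [OmV_apply, OmV_apply]
      refine Finset.sum_congr rfl fun i _ => ?_
      simp only [map_smul, smul_eq_mul, Complex.mul_re,
        Complex.mul_im, Complex.I_re, Complex.I_im]
      ring
    exact h v w
  positive := by
    intro p v hv
    have h : ∀ v : V, v ≠ 0 → 0 < OmV v (Complex.I • v) := by
      intro v hv
      rw [OmV_apply]
      have h1 : ∃ i, cc i v ≠ 0 := by
        by_contra hcon
        push Not at hcon
        apply hv
        apply (Module.finBasis ℂ V).ext_elem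
        intro i
        rw [map_zero]
        exact hcon i
      have h2 : ∀ i : Fin (Module.finrank ℂ V), (cc i v).re * (cc i (Complex.I • v)).im -
          (cc i v).im * (cc i (Complex.I • v)).re = Complex.normSq (cc i v) := by
        intro i
        rw [Complex.normSq_apply]
        simp only [map_smul, smul_eq_mul, Complex.mul_re,
          Complex.mul_im, Complex.I_re, Complex.I_im]
        ring
      rw [Finset.sum_congr rfl fun i _ => h2 i]
      obtain ⟨i, hi⟩ := h1
      exact Finset.sum_pos' (fun j _ => Complex.normSq_nonneg _)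
        ⟨i, Finset.mem_univ _, Complex.normSq_pos.2 hi⟩
    exact h v hv
  smooth := by
    intro p
    have : formInChart (V := V) (M := Torus Λ) (fun _ => OmV (V := V)) p = fun _ => OmV (V := V) := by
      ext1 y
      exact formInChart_torusV Λ _ p y
    rw [this]
    exact contDiffOn_const
  closed := by
    intro p y _ a b c
    have : formInChart (V := V) (M := Torus Λ) (fun _ => OmV (V := V)) p = fun _ => OmV (V := V) := by
      ext1 y
      exact formInChart_torusV Λ _ p y
    rw [this]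
    simp

variable {𝔤 : Type} [NormedAddCommGroup 𝔤] [NormedSpace ℂ 𝔤]
  {G : Type} [TopologicalSpace G] [ChartedSpace 𝔤 G] [Group G] [LieGroup 𝓘(ℂ, 𝔤) ω G]

/-- the holomorphic Cartan geometry of the torus given by a linear isomorphism `Θ` from `V` to the
Lie algebra of `G` -/
noncomputable def cartanTorusV (Θ : V ≃L[ℂ] 𝔤) :
    CartanGeometry 𝔤 PUnit V (Torus Λ) V (Torus Λ) (trivialSub G) where
  π := id
  act := fun e _ => e
  π_holomorphic := contMDiff_id
  act_holomorphic := contMDiff_fst
  act_one := fun _ => rfl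
  act_mul := fun _ _ _ => rfl
  locally_trivial := by
    intro x
    refine ⟨univ, (Homeomorph.prodPUnit (Torus Λ)).toOpenPartialHomeomorph, isOpen_univ,
      mem_univ _, by simp, by simp, contMDiff_fst.contMDiffOn, ?_, ?_, ?_⟩
    · exact (contMDiff_id.prodMk contMDiff_const).contMDiffOn
    · intro u _ a
      rfl
    · intro u _ a b
      rfl
  form := fun _ => (Θ : V →L[ℂ] 𝔤)
  form_holomorphic := (Θ : V →L[ℂ] 𝔤).contDiff.contMDiff.comp (Torus.contMDiff_snd Λ)
  form_bijective := fun _ => Θ.bijective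
  form_act := by
    intro h e v
    have h1 : mfderiv 𝓘(ℂ, V) 𝓘(ℂ, V) (fun e' : Torus Λ => e') e =
        ContinuousLinearMap.id ℂ _ := mfderiv_id
    have h2 : (fun x : G => (1 : G) * x * (1 : G)⁻¹) = id := by
      ext x; simp
    have h3 : Ad 𝔤 (1 : G) = ContinuousLinearMap.id ℂ _ := by
      unfold Ad
      rw [h2, mfderiv_id]
    have h4 : ((trivialSub G) h)⁻¹ = 1 := by simp [trivialSub]
    rw [h4, h3, h1]
    rfl
  form_fundamental := by
    intro e A
    have h1 : A = 0 := Subsingleton.elim (α := PUnit) _ _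
    rw [h1]
    have e1 : (mfderiv 𝓘(ℂ, PUnit) 𝓘(ℂ, V) (fun _ : PUnit => e) 1 : PUnit →L[ℂ] V) 0 = 0 :=
      map_zero _
    have e2 : (mfderiv 𝓘(ℂ, PUnit) 𝓘(ℂ, 𝔤) (trivialSub G) 1 : PUnit →L[ℂ] 𝔤) 0 = 0 :=
      map_zero _
    exact (congrArg Θ e1).trans ((map_zero Θ).trans e2.symm)

end Torus

section Main

variable (𝔤 : Type) [NormedAddCommGroup 𝔤] [NormedSpace ℂ 𝔤]
  (G : Type) [TopologicalSpace G] [ChartedSpace 𝔤 G] [Group G]
  (𝔪 : Type) [NormedAddCommGroup 𝔪] [NormedSpace ℂ 𝔪]
  (M : Type) [TopologicalSpace M] [ChartedSpace 𝔪 M]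

/-- The conclusion of the question for the homogeneous space `G = G/1` and the complex manifold
`M`: there are a closed subgroup `G'` of `G` with an open orbit `U'` in `G` and a cocompact lattice
`Γ'` in `G'` such that `M` is biholomorphic to `Γ'\U'`. -/
def Conclusion : Prop :=
  ∃ (G' Γ' : Subgroup G) (x : G), IsClosed (G' : Set G) ∧ IsOpen (MulAction.orbit G' x) ∧
    IsCocompactLattice G' Γ' ∧ IsBiholomorphicToQuotient 𝔤 G 𝔪 M Γ' (MulAction.orbit G' x)

end Main

section

variable {𝔤 : Type} [NormedAddCommGroup 𝔤] [NormedSpace ℂ 𝔤]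
  {G : Type} [TopologicalSpace G] [T2Space G] [ConnectedSpace G]
  [ChartedSpace 𝔤 G] [Group G] [LieGroup 𝓘(ℂ, 𝔤) ω G]
  {V : Type} [NormedAddCommGroup V] [NormedSpace ℂ V]
  (Λ : AddSubgroup V) [DiscreteTopology Λ] [CompactSpace (Torus Λ)]

/-- A subgroup with an open orbit for the action by left translations is the whole group. -/
theorem eq_top_of_open_orbit [IsTopologicalGroup G] (G' : Subgroup G) (x : G)
    (h : IsOpen (MulAction.orbit G' x)) : G' = ⊤ := by
  have h1 : (G' : Set G) = (fun g : G => g * x) ⁻¹' (MulAction.orbit G' x) := by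
    ext g
    simp only [SetLike.mem_coe, mem_preimage, MulAction.mem_orbit_iff]
    constructor
    · intro hg
      exact ⟨⟨g, hg⟩, rfl⟩
    · rintro ⟨⟨k, hk⟩, hk2⟩
      have hk3 : k * x = g * x := hk2
      rw [← mul_right_cancel hk3]
      exact hk
  have h2 : IsOpen (G' : Set G) := by
    rw [h1]
    exact h.preimage (continuous_mul_const x)
  have h3 : IsClosed (G' : Set G) := G'.isClosed_of_isOpen h2
  have h4 : (G' : Set G) = univ := IsClopen.eq_univ ⟨h3, h2⟩ ⟨1, G'.one_mem⟩
  exact SetLike.coe_injective (by simpa using h4)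

theorem orbit_top (x : G) : MulAction.orbit (⊤ : Subgroup G) x = univ := by
  refine eq_univ_of_forall fun y => ?_
  exact ⟨⟨y * x⁻¹, trivial⟩, by
    change y * x⁻¹ * x = y
    rw [inv_mul_cancel_right]⟩

/-- The data extracted from the conclusion of the question. -/
theorem conclusion_data (h : Conclusion 𝔤 G V (Torus Λ)) :
    ∃ (Γ : Subgroup G) (q : G → Torus Λ), DiscreteTopology Γ ∧ Function.Surjective q ∧
      IsLocalDiffeomorph 𝓘(ℂ, 𝔤) 𝓘(ℂ, V) ω q ∧
      ∀ x y : G, q x = q y ↔ ∃ γ ∈ Γ, γ * x = y := by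
  have : IsTopologicalGroup G := topologicalGroup_of_lieGroup 𝓘(ℂ, 𝔤) ω
  obtain ⟨G', Γ', x, -, ho, ⟨-, hd, -⟩, q, hq1, hq2, hq3⟩ := h
  have h1 : G' = ⊤ := eq_top_of_open_orbit G' x ho
  subst h1
  rw [orbit_top] at hq1 hq2 hq3
  refine ⟨Γ', q, hd, ?_, ?_, ?_⟩
  · rwa [image_univ, range_eq_univ] at hq1
  · exact isLocalDiffeomorph_iff_isLocalDiffeomorphOn_univ.2 hq2
  · intro x y
    exact hq3 x (mem_univ _) y (mem_univ _)

/-- If the conclusion of the question holds for a torus, then `G` is commutative. -/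
theorem commutative_of_conclusion (h : Conclusion 𝔤 G V (Torus Λ)) (a b : G) :
    a * b = b * a := by
  obtain ⟨Γ, q, hd, hs, hl, hf⟩ := conclusion_data Λ h
  exact commutative_of_quotient Λ Γ q hl hs hf a b

theorem hom_of_conclusion (h : Conclusion 𝔤 G V (Torus Λ)) :
    ∃ τ : G → Torus Λ, (∀ a b, τ (a * b) = τ a + τ b) ∧ Function.Surjective τ ∧
      IsLocalDiffeomorph 𝓘(ℂ, 𝔤) 𝓘(ℂ, V) ω τ := by
  obtain ⟨Γ, q, hd, hs, hl, hf⟩ := conclusion_data Λ h
  have hwd : ∀ x y g : G, q x = q y → q (x * g) = q (y * g) := by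
    intro x y g hxy
    obtain ⟨γ, hγ, h⟩ := (hf x y).1 hxy
    exact (hf _ _).2 ⟨γ, hγ, by rw [← h, mul_assoc]⟩
  obtain ⟨x₁, hx₁⟩ := hs 0
  refine ⟨fun y => q (x₁ * y), ?_, ?_, ?_⟩
  · intro a b
    obtain ⟨c, hc⟩ := translation Λ q hl hs hwd b
    have h1 := hc x₁
    rw [hx₁, zero_add] at h1
    change q (x₁ * (a * b)) = q (x₁ * a) + q (x₁ * b)
    rw [← mul_assoc, hc, h1]
  · intro t
    obtain ⟨y, hy⟩ := hs t
    exact ⟨x₁⁻¹ * y, by
      change q (x₁ * (x₁⁻¹ * y)) = t
      rw [mul_inv_cancel_left, hy]⟩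
  · intro y
    have hL : IsLocalDiffeomorphAt 𝓘(ℂ, 𝔤) 𝓘(ℂ, 𝔤) ω (fun z : G => x₁ * z) y := by
      let Φ : Diffeomorph 𝓘(ℂ, 𝔤) 𝓘(ℂ, 𝔤) G G ω :=
        { toEquiv := Equiv.mulLeft x₁
          contMDiff_toFun := contMDiff_mul_left (I := 𝓘(ℂ, 𝔤)) (n := ω)
          contMDiff_invFun := contMDiff_mul_left (I := 𝓘(ℂ, 𝔤)) (n := ω) }
      exact Φ.isLocalDiffeomorph y
    exact hL.comp 𝓘(ℂ, V) (Torus Λ) (hl (x₁ * y))

theorem conclusion_of_hom (τ : G → Torus Λ) (hm : ∀ a b, τ (a * b) = τ a + τ b)
    (hs : Function.Surjective τ) (hl : IsLocalDiffeomorph 𝓘(ℂ, 𝔤) 𝓘(ℂ, V) ω τ) :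
    Conclusion 𝔤 G V (Torus Λ) := by
  have : IsTopologicalGroup G := topologicalGroup_of_lieGroup 𝓘(ℂ, 𝔤) ω
  have h1 : τ 1 = 0 := by
    have := hm 1 1
    rw [mul_one] at this
    exact left_eq_add.1 this
  have hinv : ∀ a, τ a⁻¹ = - τ a := by
    intro a
    have := hm a a⁻¹
    rw [mul_inv_cancel, h1] at this
    exact eq_neg_of_add_eq_zero_right this.symm
  let Γ : Subgroup G :=
    { carrier := {a | τ a = 0}
      one_mem' := h1
      mul_mem' := by
        intro a b ha hb
        change τ (a * b) = 0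
        rw [hm, show τ a = 0 from ha, show τ b = 0 from hb, add_zero]
      inv_mem' := by
        intro a ha
        change τ a⁻¹ = 0
        rw [hinv, show τ a = 0 from ha, neg_zero] }
  have hΓ : ∀ a, a ∈ Γ ↔ τ a = 0 := fun a => Iff.rfl
  refine ⟨⊤, Γ, 1, isClosed_univ, ?_, ⟨le_top, ?_, ?_⟩, τ, ?_, hl.isLocalDiffeomorphOn _, ?_⟩
  · rw [orbit_top]
    exact isOpen_univ
  · -- discreteness
    obtain ⟨Φ, hΦ1, hΦ2⟩ := hl 1
    apply discreteTopology_of_isOpen_singleton_one
    have h2 : ({1} : Set Γ) = Subtype.val ⁻¹' Φ.source := by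
      ext γ
      simp only [mem_singleton_iff, mem_preimage]
      constructor
      · rintro rfl
        exact hΦ1
      · intro hγ
        have h3 : τ γ = τ 1 := by rw [h1]; exact γ.2
        rw [hΦ2 hγ, hΦ2 hΦ1] at h3
        exact Subtype.ext (Φ.injOn hγ hΦ1 h3)
    rw [h2]
    exact Φ.open_source.preimage continuous_subtype_val
  · -- compactness
    let F : Torus Λ → (⊤ : Subgroup G) ⧸ Γ.subgroupOf ⊤ :=
      fun t => QuotientGroup.mk (⟨(hs t).choose, trivial⟩ : (⊤ : Subgroup G))
    have hF : ∀ g : G, F (τ g) = QuotientGroup.mk (⟨g, trivial⟩ : (⊤ : Subgroup G)) := by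
      intro g
      rw [QuotientGroup.eq, Subgroup.mem_subgroupOf]
      change τ ((hs (τ g)).choose⁻¹ * g) = 0
      rw [hm, hinv, (hs (τ g)).choose_spec, neg_add_cancel]
    have hFs : Function.Surjective F := by
      intro a
      obtain ⟨g, rfl⟩ := QuotientGroup.mk_surjective a
      exact ⟨τ g, hF g⟩
    have hFc : Continuous F := by
      have hqm : Topology.IsQuotientMap τ := hl.isOpenMap.isQuotientMap hl.contMDiff.continuous hs
      rw [hqm.continuous_iff]
      have : F ∘ τ = fun g => QuotientGroup.mk (⟨g, trivial⟩ : (⊤ : Subgroup G)) := by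
        ext g
        exact hF g
      rw [this]
      exact QuotientGroup.continuous_mk.comp (continuous_id.subtype_mk _)
    exact hFs.compactSpace hFc
  · rw [orbit_top, image_univ, range_eq_univ]
    exact hs
  · intro x _ y _
    constructor
    · intro hxy
      refine ⟨y * x⁻¹, ?_, ?_⟩
      · rw [hΓ, hm, hinv, hxy, add_neg_cancel]
      · change y * x⁻¹ * x = y
        rw [inv_mul_cancel_right]
    · rintro ⟨γ, hγ, h⟩
      have h2 : γ * x = y := h
      rw [← h2, hm, show τ γ = 0 from hγ, zero_add]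

end

end Pool.Agent.Y167.Cartan
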