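import Mathlib

/-! # A primitive of an analytic 1-form is analytic -/

set_option autoImplicit false
set_option linter.unusedSectionVars false

open scoped Topology ENNReal NNReal
open Set Filter

namespace Pool.Agent.Y167.Cartan

/-- A primitive of an analytic 1-form is analytic. -/
lemma analyticAt_primitive {E F : Type} [NormedAddCommGroup E] [NormedSpace ℂ E]
    [NormedAddCommGroup F] [NormedSpace ℂ F] [CompleteSpace F] (f : E → F) (Ω : E → E →L[ℂ] F)
    (x₀ : E) (hΩ : AnalyticAt ℂ Ω x₀) (hf : ∀ᶠ x in 𝓝 x₀, HasFDerivAt f (Ω x) x) :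
    AnalyticAt ℂ f x₀ := by
  obtain ⟨p, R, hp⟩ := hΩ
  let q : FormalMultilinearSeries ℂ E (E →L[ℂ] F) := fun n => ((n + 1 : ℂ)⁻¹) • p n
  have hqn : ∀ n, ‖q n‖ ≤ ‖p n‖ := by
    intro n
    have h1 : ‖((n + 1 : ℂ)⁻¹)‖ ≤ 1 := by
      rw [norm_inv]
      apply inv_le_one_of_one_le₀
      have h2 : ((n : ℂ) + 1) = ((n + 1 : ℕ) : ℂ) := by push_cast; rfl
      rw [h2, Complex.norm_natCast]
      exact_mod_cast Nat.succ_le_succ (Nat.zero_le n)
    refine (q n).opNorm_le_bound (p n).opNorm_nonneg (fun m => ?_)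
    have h3 : q n m = ((n + 1 : ℂ)⁻¹) • (p n m) := rfl
    rw [h3, norm_smul]
    exact (mul_le_of_le_one_left (norm_nonneg _) h1).trans ((p n).le_opNorm m)
  have hqr : p.radius ≤ q.radius := FormalMultilinearSeries.radius_le_of_le hqn
  have hq : HasFPowerSeriesOnBall q.sum q 0 q.radius :=
    q.hasFPowerSeriesOnBall (lt_of_lt_of_le (hp.r_pos.trans_le hp.r_le) hqr)
  obtain ⟨ε, hε, hεf⟩ := Metric.eventually_nhds_iff_ball.1 hf
  obtain ⟨ρ, hρ0, hρR⟩ := ENNReal.lt_iff_exists_nnreal_btwn.1 hp.r_pos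
  have hρ0' : 0 < (ρ : ℝ) := by exact_mod_cast hρ0
  have hm1 : min ε (ρ : ℝ) ≤ ε := min_le_left _ _
  have hm2 : min ε (ρ : ℝ) ≤ ρ := min_le_right _ _
  have hm3 : 0 < min ε (ρ : ℝ) := lt_min hε hρ0'
  have key : ∀ y : E, ‖y‖ < min ε (ρ : ℝ) / 2 → f (x₀ + y) = f x₀ + q.sum y y := by
    intro y hy
    have hty : ∀ t ∈ Metric.ball (0 : ℂ) 2, ‖t‖ * ‖y‖ < min ε (ρ : ℝ) := by
      intro t ht
      rw [mem_ball_zero_iff] at ht
      nlinarith [norm_nonneg y, norm_nonneg t]
    let u : ℕ → ℝ := fun n => ‖p n‖ * (ρ : ℝ) ^ n * ‖y‖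
    have hu : Summable u := (p.summable_norm_mul_pow (hρR.trans_le hp.r_le)).mul_right _
    let g : ℕ → ℂ → F := fun n t => (t ^ (n + 1) * ((n + 1 : ℂ)⁻¹)) • (p n (fun _ => y)) y
    let g' : ℕ → ℂ → F := fun n t => t ^ n • (p n (fun _ => y)) y
    have hg : ∀ n, ∀ t : ℂ, HasDerivAt (g n) (g' n t) t := by
      intro n t
      have h1 := ((hasDerivAt_pow (n + 1) t).mul_const ((n + 1 : ℂ)⁻¹)).smul_const
        ((p n (fun _ => y)) y)
      convert h1 using 1
      simp only [g']
      congr 1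
      have h2 : (n + 1 : ℂ) ≠ 0 := Nat.cast_add_one_ne_zero n
      push_cast
      field_simp
    have hg' : ∀ n, ∀ t ∈ Metric.ball (0 : ℂ) 2, ‖g' n t‖ ≤ u n := by
      intro n t ht
      have h1 : ‖(p n (fun _ => y)) y‖ ≤ ‖p n‖ * ‖y‖ ^ n * ‖y‖ := by
        refine ((p n (fun _ => y)).le_opNorm y).trans ?_
        gcongr
        have := (p n).le_opNorm (fun _ => y)
        simpa using this
      calc ‖g' n t‖ = ‖t‖ ^ n * ‖(p n (fun _ => y)) y‖ := by
            simp only [g']
            rw [norm_smul, norm_pow]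
        _ ≤ ‖t‖ ^ n * (‖p n‖ * ‖y‖ ^ n * ‖y‖) := by gcongr
        _ = ‖p n‖ * (‖t‖ * ‖y‖) ^ n * ‖y‖ := by rw [mul_pow]; ring
        _ ≤ ‖p n‖ * (ρ : ℝ) ^ n * ‖y‖ := by
            have := ((hty t ht).trans_le hm2).le
            gcongr
    have hg0 : Summable fun n => g n 0 := by
      have : (fun n => g n 0) = fun _ => 0 := by
        funext n
        simp [g]
      rw [this]
      exact summable_zero
    have hd : ∀ t ∈ Metric.ball (0 : ℂ) 2,
        HasDerivAt (fun z => ∑' n, g n z) (∑' n, g' n t) t := fun t ht =>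
      hasDerivAt_tsum_of_isPreconnected hu Metric.isOpen_ball
        (convex_ball (0 : ℂ) 2).isPreconnected (fun n z _ => hg n z) hg'
        (Metric.mem_ball_self two_pos) hg0 ht
    have hs : ∀ t ∈ Metric.ball (0 : ℂ) 2, ∑' n, g' n t = Ω (x₀ + t • y) y := by
      intro t ht
      have h1 : t • y ∈ Metric.eball (0 : E) R := by
        rw [mem_eball_zero_iff]
        refine lt_of_le_of_lt ?_ hρR
        rw [← ofReal_norm, norm_smul]
        apply ENNReal.ofReal_le_of_le_toReal
        rw [ENNReal.coe_toReal]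
        exact ((hty t ht).trans_le hm2).le
      have h2 := (ContinuousLinearMap.apply ℂ F y).hasSum (hp.hasSum h1)
      have h3 : (fun n => (ContinuousLinearMap.apply ℂ F y) ((p n) fun _ => t • y)) =
          fun n => g' n t := by
        funext n
        have h4 : (p n (fun _ => t • y)) = t ^ n • p n (fun _ => y) := by
          have := (p n).map_smul_univ (fun _ => t) (fun _ => y)
          simpa using this
        rw [h4]
        simp [g']
      rw [h3] at h2
      exact h2.tsum_eq
    have hfd : ∀ t ∈ Metric.ball (0 : ℂ) 2,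
        HasDerivAt (fun t : ℂ => f (x₀ + t • y)) (Ω (x₀ + t • y) y) t := by
      intro t ht
      have h1 : HasFDerivAt f (Ω (x₀ + t • y)) (x₀ + t • y) := by
        apply hεf
        rw [Metric.mem_ball, dist_eq_norm, add_sub_cancel_left, norm_smul]
        exact (hty t ht).trans_le hm1
      have h2 : HasDerivAt (fun t : ℂ => x₀ + t • y) ((1 : ℂ) • y) t :=
        ((hasDerivAt_id t).smul_const y).const_add x₀
      have h3 := h1.comp_hasDerivAt t h2
      rw [one_smul] at h3
      exact h3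
    have hD : ∀ t ∈ Metric.ball (0 : ℂ) 2,
        HasDerivAt (fun t : ℂ => f (x₀ + t • y) - ∑' n, g n t) 0 t := by
      intro t ht
      have h1 := (hfd t ht).sub (hd t ht)
      rw [hs t ht, sub_self] at h1
      exact h1
    have hone : (1 : ℂ) ∈ Metric.ball (0 : ℂ) 2 := by
      rw [mem_ball_zero_iff, norm_one]
      exact one_lt_two
    have hc := Metric.isOpen_ball.is_const_of_deriv_eq_zero
      (convex_ball (0 : ℂ) 2).isPreconnected
      (f := fun t : ℂ => f (x₀ + t • y) - ∑' n, g n t)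
      (fun t ht => (hD t ht).differentiableAt.differentiableWithinAt)
      (fun t ht => (hD t ht).deriv) hone (Metric.mem_ball_self two_pos)
    have h0 : ∑' n, g n 0 = 0 := by
      have : (fun n => g n 0) = fun _ => 0 := by
        funext n
        simp [g]
      rw [this]
      exact tsum_zero
    have h1 : ∑' n, g n 1 = q.sum y y := by
      have h2 : y ∈ Metric.eball (0 : E) q.radius := by
        rw [mem_eball_zero_iff]
        refine lt_of_le_of_lt ?_ ((hρR.trans_le hp.r_le).trans_le hqr)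
        rw [← ofReal_norm]
        apply ENNReal.ofReal_le_of_le_toReal
        rw [ENNReal.coe_toReal]
        linarith
      have h3 := (ContinuousLinearMap.apply ℂ F y).hasSum (hq.hasSum h2)
      rw [zero_add] at h3
      have h4 : (fun n => (ContinuousLinearMap.apply ℂ F y) ((q n) fun _ => y)) =
          fun n => g n 1 := by
        funext n
        simp [g, q]
      rw [h4] at h3
      exact h3.tsum_eq
    simp only [one_smul, zero_smul, add_zero] at hc
    rw [h0, h1, sub_zero] at hc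
    rw [← hc]
    abel
  have a0 : AnalyticAt ℂ (fun x : E => x - x₀) x₀ := analyticAt_id.sub analyticAt_const
  have a1 : AnalyticAt ℂ q.sum (x₀ - x₀) := by
    rw [sub_self]
    exact ⟨q, q.radius, hq⟩
  have a2 : AnalyticAt ℂ (fun x => q.sum (x - x₀)) x₀ :=
    AnalyticAt.comp (g := q.sum) (f := fun x : E => x - x₀) a1 a0
  have a3 : AnalyticAt ℂ (fun x => f x₀ + q.sum (x - x₀) (x - x₀)) x₀ :=
    analyticAt_const.add (a2.contDiffAt.clm_apply
      (contDiffAt_id.sub contDiffAt_const)).analyticAt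
  refine a3.congr ?_
  have hδ : 0 < min ε (ρ : ℝ) / 2 := by positivity
  filter_upwards [Metric.ball_mem_nhds x₀ hδ] with x hx
  rw [Metric.mem_ball, dist_eq_norm] at hx
  have := key (x - x₀) hx
  rw [add_sub_cancel] at this
  exact this.symm

end Pool.Agent.Y167.Cartan
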