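import Pool.Agent.Y167.Cartan.Abel2
import Pool.Agent.Y167.Cartan.Prim

/-! # Local parameters with constant logarithmic derivative of a group with abelian Lie algebra -/

set_option autoImplicit false
set_option linter.unusedSectionVars false

open scoped Manifold ContDiff Topology
open Set Filter Pool.Agent.H194R3.Cartan Pool.Agent.W490.Flat VectorField

namespace Pool.Agent.Y167.Cartan

variable {𝔤 : Type} [NormedAddCommGroup 𝔤] [NormedSpace ℂ 𝔤]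
  {G : Type} [TopologicalSpace G] [ChartedSpace 𝔤 G] [Group G] [LieGroup 𝓘(ℂ, 𝔤) ω G]

/-- A complex Lie group with abelian Lie algebra has a holomorphic local parameter at `1` which is
a local homomorphism. -/
theorem exists_localParam [FiniteDimensional ℂ 𝔤] (h0 : ∀ v w : LieAlg 𝔤 G, ⁅v, w⁆ = 0) :
    ∃ (D : PartialDiffeomorph 𝓘(ℂ, 𝔤) 𝓘(ℂ, 𝔤) 𝔤 G ω) (r : ℝ), 0 < r ∧
      Metric.ball (0 : 𝔤) r ⊆ D.source ∧
      ∀ v ∈ Metric.ball (0 : 𝔤) r, ∀ h ∈ Metric.ball (0 : 𝔤) r,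
        D (v + h) * (D v)⁻¹ = D h * (D 0)⁻¹ := by
  have : CompleteSpace 𝔤 := FiniteDimensional.complete ℂ 𝔤
  set x₀ : 𝔤 := extChartAt 𝓘(ℂ, 𝔤) (1 : G) 1 with hx₀def
  have hx₀ : x₀ ∈ TT 𝔤 G := mem_extChartAt_target (1 : G)
  have hsy : sy (𝔤 := 𝔤) G x₀ = 1 := extChartAt_to_inv (1 : G)
  obtain ⟨r, hr, hball⟩ := Metric.isOpen_iff.1 (isOpen_extChartAt_target (I := 𝓘(ℂ, 𝔤)) (1 : G))
    x₀ hx₀
  set Ω : 𝔤 → 𝔤 →L[ℂ] 𝔤 := mc 𝔤 (sy (𝔤 := 𝔤) G) with hΩ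
  have hΩa : ∀ x ∈ Metric.ball x₀ r, ContDiffAt ℂ ω Ω x := fun x hx =>
    contDiffAt_mc _ x (contMDiffAt_sy (hball hx))
  have hΩd : ∀ x ∈ Metric.ball x₀ r, DifferentiableAt ℂ Ω x := fun x hx =>
    (hΩa x hx).differentiableAt (by simp)
  obtain ⟨lam, hlam⟩ := primitive x₀ r Ω hΩd (fun x hx a b => closed (hball hx) h0 a b)
  have hC : ∀ x ∈ Metric.ball x₀ r, ContDiffAt ℂ ω lam x := by
    intro x hx
    refine (analyticAt_primitive lam Ω x (hΩa x hx).analyticAt ?_).contDiffAt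
    filter_upwards [Metric.isOpen_ball.mem_nhds hx] with z hz
    exact hlam z hz
  have hE : ∀ x ∈ Metric.ball x₀ r, ∃ e : 𝔤 ≃L[ℂ] 𝔤, (e : 𝔤 →L[ℂ] 𝔤) = Ω x := by
    intro x hx
    have hinj : Function.Injective (Ω x : 𝔤 →ₗ[ℂ] 𝔤) := mc_injective (hball hx)
    refine ⟨(LinearEquiv.ofInjectiveEndo (Ω x : 𝔤 →ₗ[ℂ] 𝔤) hinj).toContinuousLinearEquiv, ?_⟩
    ext z
    rfl
  have hm : x₀ ∈ Metric.ball x₀ r := Metric.mem_ball_self hr
  obtain ⟨e₀, he₀⟩ := hE x₀ hm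
  have hd0 : HasFDerivAt lam (e₀ : 𝔤 →L[ℂ] 𝔤) x₀ := by rw [he₀]; exact hlam x₀ hm
  have hω0 : (ω : WithTop ℕ∞) ≠ 0 := by simp
  set Φ := (hC x₀ hm).toOpenPartialHomeomorph lam hd0 hω0 with hΦ
  have hΦc : ∀ x, Φ x = lam x := fun x => rfl
  have hsrc : x₀ ∈ Φ.source := (hC x₀ hm).mem_toOpenPartialHomeomorph_source hd0 hω0
  have htgt : lam x₀ ∈ Φ.target :=
    (hC x₀ hm).image_mem_toOpenPartialHomeomorph_target hd0 hω0
  have hinv : Φ.symm (lam x₀) = x₀ := Φ.left_inv hsrc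
  let U : Set 𝔤 := {y | y + lam x₀ ∈ Φ.target ∧ Φ.symm (y + lam x₀) ∈ Metric.ball x₀ r}
  have hUo : IsOpen U := by
    have h1 : IsOpen (Φ.symm.source ∩ Φ.symm ⁻¹' Metric.ball x₀ r) :=
      Φ.symm.isOpen_inter_preimage Metric.isOpen_ball
    exact h1.preimage (continuous_id.add continuous_const)
  have h0U : (0 : 𝔤) ∈ U := by
    refine ⟨?_, ?_⟩
    · rw [zero_add]; exact htgt
    · rw [zero_add, hinv]; exact hm
  have hder : ∀ y ∈ U, ∃ e : 𝔤 ≃L[ℂ] 𝔤, (e : 𝔤 →L[ℂ] 𝔤) = Ω (Φ.symm (y + lam x₀)) ∧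
      HasFDerivAt (fun u : 𝔤 => Φ.symm (u + lam x₀)) (e.symm : 𝔤 →L[ℂ] 𝔤) y ∧
      ContDiffAt ℂ ω (fun u : 𝔤 => Φ.symm (u + lam x₀)) y := by
    intro y hy
    obtain ⟨e, he⟩ := hE _ hy.2
    have h1 : HasFDerivAt Φ (e : 𝔤 →L[ℂ] 𝔤) (Φ.symm (y + lam x₀)) := by
      rw [he]; exact hlam _ hy.2
    have h2 := Φ.hasFDerivAt_symm hy.1 h1
    have h3 : ContDiffAt ℂ ω Φ.symm (y + lam x₀) := Φ.contDiffAt_symm hy.1 h1 (hC _ hy.2)
    refine ⟨e, he, ?_, ?_⟩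
    · have h4 : HasFDerivAt (fun u : 𝔤 => u + lam x₀) (ContinuousLinearMap.id ℂ 𝔤) y :=
        (hasFDerivAt_id y).add_const _
      have h5 := h2.comp y h4
      exact h5
    · exact ContDiffAt.comp y (g := Φ.symm) (f := fun u : 𝔤 => u + lam x₀) h3
        (contDiffAt_id.add contDiffAt_const)
  let W : Set G := {g | g ∈ (extChartAt 𝓘(ℂ, 𝔤) (1 : G)).source ∧
    phi (𝔤 := 𝔤) G g ∈ Φ.source ∩ Metric.ball x₀ r}
  have hphi : ∀ g ∈ (extChartAt 𝓘(ℂ, 𝔤) (1 : G)).source,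
      ContMDiffAt 𝓘(ℂ, 𝔤) 𝓘(ℂ, 𝔤) ω (phi (𝔤 := 𝔤) G) g := by
    intro g hg
    rw [extChartAt_source] at hg
    exact contMDiffAt_extChartAt' hg
  have hWo : IsOpen W := by
    have h1 : IsOpen (Φ.source ∩ Metric.ball x₀ r) := Φ.open_source.inter Metric.isOpen_ball
    rw [isOpen_iff_mem_nhds]
    rintro g ⟨hg1, hg2⟩
    exact inter_mem ((isOpen_extChartAt_source (I := 𝓘(ℂ, 𝔤)) (1 : G)).mem_nhds hg1)
      ((hphi g hg1).continuousAt.preimage_mem_nhds (h1.mem_nhds hg2))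
  let c : 𝔤 → G := fun y => sy (𝔤 := 𝔤) G (Φ.symm (y + lam x₀))
  have hcs : ∀ y ∈ U, ContMDiffAt 𝓘(ℂ, 𝔤) 𝓘(ℂ, 𝔤) ω c y := by
    intro y hy
    obtain ⟨e, he, h1, h2⟩ := hder y hy
    exact ContMDiffAt.comp y (g := sy (𝔤 := 𝔤) G) (f := fun u : 𝔤 => Φ.symm (u + lam x₀))
      (contMDiffAt_sy (hball hy.2)) h2.contMDiffAt
  have hphisy : ∀ x ∈ Metric.ball x₀ r, phi (𝔤 := 𝔤) G (sy (𝔤 := 𝔤) G x) = x := fun x hx =>
    (extChartAt 𝓘(ℂ, 𝔤) (1 : G)).right_inv (hball hx)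
  let D : PartialDiffeomorph 𝓘(ℂ, 𝔤) 𝓘(ℂ, 𝔤) 𝔤 G ω :=
    { toFun := c
      invFun := fun g => lam (phi (𝔤 := 𝔤) G g) - lam x₀
      source := U
      target := W
      map_source' := by
        intro y hy
        refine ⟨(extChartAt 𝓘(ℂ, 𝔤) (1 : G)).map_target (hball hy.2), ?_⟩
        change phi (𝔤 := 𝔤) G (sy (𝔤 := 𝔤) G (Φ.symm (y + lam x₀))) ∈ _
        rw [hphisy _ hy.2]
        exact ⟨Φ.map_target hy.1, hy.2⟩
      map_target' := by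
        intro g hg
        refine ⟨?_, ?_⟩
        · rw [sub_add_cancel]
          exact Φ.map_source hg.2.1
        · rw [sub_add_cancel]
          have h1 : Φ.symm (lam (phi (𝔤 := 𝔤) G g)) = phi (𝔤 := 𝔤) G g := Φ.left_inv hg.2.1
          rw [h1]
          exact hg.2.2
      left_inv' := by
        intro y hy
        change lam (phi (𝔤 := 𝔤) G (sy (𝔤 := 𝔤) G (Φ.symm (y + lam x₀)))) - lam x₀ = y
        rw [hphisy _ hy.2]
        have h1 : lam (Φ.symm (y + lam x₀)) = y + lam x₀ := Φ.right_inv hy.1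
        rw [h1, add_sub_cancel_right]
      right_inv' := by
        intro g hg
        change sy (𝔤 := 𝔤) G (Φ.symm (lam (phi (𝔤 := 𝔤) G g) - lam x₀ + lam x₀)) = g
        rw [sub_add_cancel]
        have h1 : Φ.symm (lam (phi (𝔤 := 𝔤) G g)) = phi (𝔤 := 𝔤) G g := Φ.left_inv hg.2.1
        rw [h1]
        exact (extChartAt 𝓘(ℂ, 𝔤) (1 : G)).left_inv hg.1
      open_source := hUo
      open_target := hWo
      contMDiffOn_toFun := fun y hy => (hcs y hy).contMDiffWithinAt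
      contMDiffOn_invFun := by
        intro g hg
        apply ContMDiffAt.contMDiffWithinAt
        have h1 : ContDiffAt ℂ ω (fun z => lam z - lam x₀) (phi (𝔤 := 𝔤) G g) :=
          (hC _ hg.2.2).sub contDiffAt_const
        exact ContMDiffAt.comp g (g := fun z => lam z - lam x₀) (f := phi (𝔤 := 𝔤) G)
          h1.contMDiffAt (hphi g hg.1) }
  have hmc : ∀ y ∈ U, mc 𝔤 c y = ContinuousLinearMap.id ℂ 𝔤 := by
    intro y hy
    obtain ⟨e, he, h1, h2⟩ := hder y hy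
    have h3 := hasFDerivAt_mc_sy (G := G) (hball hy.2)
    have h4 := HasFDerivAt.comp y (f := fun u : 𝔤 => Φ.symm (u + lam x₀)) h3 h1
    have h5 : mc 𝔤 c y = (Ω (Φ.symm (y + lam x₀))).comp (e.symm : 𝔤 →L[ℂ] 𝔤) := h4.fderiv
    rw [h5, ← he]
    ext z
    simp
  obtain ⟨r1, hr1, hloc⟩ := local_hom c U (hUo.mem_nhds h0U)
    (fun y hy => (hcs y hy).of_le (by simp)) (ContinuousLinearMap.id ℂ 𝔤) hmc
  obtain ⟨r2, hr2, hball2⟩ := Metric.isOpen_iff.1 hUo 0 h0U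
  refine ⟨D, min r1 r2, lt_min hr1 hr2,
    (Metric.ball_subset_ball (min_le_right _ _)).trans hball2, fun v hv h hh => ?_⟩
  exact hloc v (Metric.ball_subset_ball (min_le_left _ _) hv) h
    (Metric.ball_subset_ball (min_le_left _ _) hh)

end Pool.Agent.Y167.Cartan
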