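import Pool.Agent.H194R3.Cartan.Main

/-! # Quotients of Lie groups which are complex tori

`G` is a connected complex Lie group and `q : G → T` is a surjective local biholomorphism onto a
complex torus whose fibres are the orbits of a discrete subgroup. Then the right translations of
`G` induce translations of the torus, and `G` is commutative. -/

set_option autoImplicit false
set_option linter.unusedSectionVars false

open scoped Manifold ContDiff Topology
open Set Filter Pool.Agent.H194R3.Cartan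

namespace Pool.Agent.Y167.Cartan

variable {V : Type} [NormedAddCommGroup V] [NormedSpace ℂ V] (Λ : AddSubgroup V)

noncomputable instance : AddCommGroup (Torus Λ) := inferInstanceAs (AddCommGroup (V ⧸ Λ))

instance : IsTopologicalAddGroup (Torus Λ) := inferInstanceAs (IsTopologicalAddGroup (V ⧸ Λ))

lemma proj_sub (u v : V) : Torus.proj Λ (u - v) = Torus.proj Λ u - Torus.proj Λ v := rfl

variable [DiscreteTopology Λ]

lemma proj_chart (p₀ p : Torus Λ) (hp : p ∈ (chartAt V p₀).source) :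
    Torus.proj Λ (chartAt V p₀ p) = p := by
  rw [← Torus.chart_symm Λ (chart_mem_atlas V p₀), (chartAt V p₀).left_inv hp]

lemma contMDiffAt_chart (p₀ : Torus Λ) :
    ContMDiffAt 𝓘(ℂ, V) 𝓘(ℂ, V) ω (chartAt V p₀) p₀ := by
  have h : ContMDiffAt 𝓘(ℂ, V) 𝓘(ℂ, V) ω (extChartAt 𝓘(ℂ, V) p₀) p₀ := contMDiffAt_extChartAt
  have e : (extChartAt 𝓘(ℂ, V) p₀ : Torus Λ → V) = chartAt V p₀ := by
    ext x
    simp only [mfld_simps]
  rwa [e] at h

variable {𝔤 : Type} [NormedAddCommGroup 𝔤] [NormedSpace ℂ 𝔤]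
  {G : Type} [TopologicalSpace G] [ChartedSpace 𝔤 G] [Group G] [LieGroup 𝓘(ℂ, 𝔤) ω G]

/-- the difference of the effect of a right translation and the identity, in a chart, is
holomorphic -/
lemma mdifferentiable_diff (q : G → Torus Λ) (hq : IsLocalDiffeomorph 𝓘(ℂ, 𝔤) 𝓘(ℂ, V) ω q)
    (hs : Function.Surjective q) (g : G) (e : OpenPartialHomeomorph (Torus Λ) V)
    (he : e ∈ atlas V (Torus Λ)) (D : Torus Λ → V)
    (hD : ∀ y, D (q y) = e (q (y * g) - q y)) (hmem : ∀ y, q (y * g) - q y ∈ e.source) :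
    MDifferentiable 𝓘(ℂ, V) 𝓘(ℂ, V) D := by
  intro t₀
  obtain ⟨x₀, rfl⟩ := hs t₀
  have hr : ContMDiff 𝓘(ℂ, 𝔤) 𝓘(ℂ, 𝔤) ω (fun y : G => y * g) :=
    contMDiff_mul_right (I := 𝓘(ℂ, 𝔤)) (n := ω)
  have hqc : ContMDiff 𝓘(ℂ, 𝔤) 𝓘(ℂ, V) ω q := hq.contMDiff
  have h1 : ContMDiffAt 𝓘(ℂ, 𝔤) 𝓘(ℂ, V) ω (fun y => chartAt V (q x₀) (q y)) x₀ :=
    (contMDiffAt_chart Λ (q x₀)).comp x₀ hqc.contMDiffAt
  have h2 : ContMDiffAt 𝓘(ℂ, 𝔤) 𝓘(ℂ, V) ω (fun y => chartAt V (q (x₀ * g)) (q (y * g))) x₀ :=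
    (contMDiffAt_chart Λ (q (x₀ * g))).comp x₀ (hqc.comp hr).contMDiffAt
  have h3 : ContMDiffAt 𝓘(ℂ, 𝔤) 𝓘(ℂ, V) ω
      (fun y => chartAt V (q (x₀ * g)) (q (y * g)) - chartAt V (q x₀) (q y)) x₀ := h2.sub h1
  have hs1 : ∀ᶠ y in 𝓝 x₀, q y ∈ (chartAt V (q x₀)).source :=
    hqc.continuous.continuousAt.preimage_mem_nhds
      ((chartAt V (q x₀)).open_source.mem_nhds (mem_chart_source V _))
  have hs2 : ∀ᶠ y in 𝓝 x₀, q (y * g) ∈ (chartAt V (q (x₀ * g))).source :=
    (hqc.comp hr).continuous.continuousAt.preimage_mem_nhds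
      ((chartAt V (q (x₀ * g))).open_source.mem_nhds (mem_chart_source V _))
  have hv0 : Torus.proj Λ (chartAt V (q (x₀ * g)) (q (x₀ * g)) - chartAt V (q x₀) (q x₀)) ∈
      e.source := by
    rw [proj_sub, proj_chart Λ _ _ (mem_chart_source V _), proj_chart Λ _ _ (mem_chart_source V _)]
    exact hmem x₀
  obtain ⟨w, hw⟩ := Torus.key Λ he hv0
  have hw2 : ∀ᶠ y in 𝓝 x₀, e (Torus.proj Λ (chartAt V (q (x₀ * g)) (q (y * g)) -
      chartAt V (q x₀) (q y))) = chartAt V (q (x₀ * g)) (q (y * g)) -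
      chartAt V (q x₀) (q y) + w := h3.continuousAt.tendsto.eventually hw
  have h4 : ContMDiffAt 𝓘(ℂ, 𝔤) 𝓘(ℂ, V) ω (fun y => D (q y)) x₀ := by
    refine (h3.add (contMDiffAt_const (c := w))).congr_of_eventuallyEq ?_
    filter_upwards [hs1, hs2, hw2] with y hy1 hy2 hy3
    change D (q y) = chartAt V (q (x₀ * g)) (q (y * g)) - chartAt V (q x₀) (q y) + w
    rw [hD, ← hy3, proj_sub, proj_chart Λ _ _ hy1, proj_chart Λ _ _ hy2]
  have hx := hq x₀
  have h5 : ContMDiffAt 𝓘(ℂ, V) 𝓘(ℂ, 𝔤) ω hx.localInverse (q x₀) := hx.localInverse_contMDiffAt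
  have h6 : hx.localInverse (q x₀) = x₀ := hx.localInverse_left_inv hx.localInverse_mem_target
  have h7 : ContMDiffAt 𝓘(ℂ, V) 𝓘(ℂ, V) ω (fun t => D (q (hx.localInverse t))) (q x₀) := by
    refine ContMDiffAt.comp (q x₀) (g := fun y => D (q y)) ?_ h5
    rw [h6]
    exact h4
  have h8 : ContMDiffAt 𝓘(ℂ, V) 𝓘(ℂ, V) ω D (q x₀) := by
    refine h7.congr_of_eventuallyEq ?_
    filter_upwards [hx.localInverse_eventuallyEq_right] with t ht
    have : q (hx.localInverse t) = t := ht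
    rw [this]
  exact h8.mdifferentiableAt (by simp)

variable [ConnectedSpace G]

/-- A right translation close to the identity induces a translation of the torus. -/
lemma eventually_translation [CompactSpace (Torus Λ)] (q : G → Torus Λ)
    (hq : IsLocalDiffeomorph 𝓘(ℂ, 𝔤) 𝓘(ℂ, V) ω q)
    (hs : Function.Surjective q)
    (hwd : ∀ x y g : G, q x = q y → q (x * g) = q (y * g)) :
    ∀ᶠ g in 𝓝 (1 : G), ∃ c, ∀ x, q (x * g) = q x + c := by
  have : IsTopologicalGroup G := topologicalGroup_of_lieGroup 𝓘(ℂ, 𝔤) ω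
  set e := chartAt V (0 : Torus Λ) with he
  have hqc : Continuous q := hq.contMDiff.continuous
  have ho : IsOpenMap q := hq.isOpenMap
  let R : G → Torus Λ → Torus Λ := fun g t => q ((hs t).choose * g)
  have hR : ∀ g x, R g (q x) = q (x * g) := fun g x => hwd _ _ g (hs (q x)).choose_spec
  have h1 : ∀ᶠ g in 𝓝 (1 : G), ∀ t ∈ (univ : Set (Torus Λ)), R g t - t ∈ e.source := by
    refine isCompact_univ.eventually_forall_of_forall_eventually (P := fun g t =>
      R g t - t ∈ e.source) ?_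
    intro t _
    obtain ⟨x, rfl⟩ := hs t
    have h2 : ∀ᶠ z : G × G in 𝓝 (1, x), q (z.2 * z.1) - q z.2 ∈ e.source := by
      have hc : Continuous (fun z : G × G => q (z.2 * z.1) - q z.2) := by fun_prop
      apply hc.continuousAt.preimage_mem_nhds
      apply e.open_source.mem_nhds
      simp only [mul_one, sub_self]
      exact mem_chart_source V _
    have h3 : 𝓝 ((1 : G), q x) = map (Prod.map id q) (𝓝 (1, x)) := by
      rw [nhds_prod_eq, nhds_prod_eq, ← Filter.prod_map_map_eq', Filter.map_id]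
      congr 1
      exact le_antisymm (ho.nhds_le x) hqc.continuousAt
    rw [h3, eventually_map]
    filter_upwards [h2] with z hz
    change R z.1 (q z.2) - q z.2 ∈ e.source
    rw [hR]
    exact hz
  filter_upwards [h1] with g hg
  have h2 : ∀ y, q (y * g) - q y ∈ e.source := by
    intro y
    rw [← hR]
    exact hg _ (mem_univ _)
  have h3 : MDifferentiable 𝓘(ℂ, V) 𝓘(ℂ, V) (fun t => e (R g t - t)) :=
    mdifferentiable_diff Λ q hq hs g e (chart_mem_atlas V _) _ (fun y => by rw [hR]) h2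
  refine ⟨q (1 * g) - q 1, fun x => ?_⟩
  have h4 : e (R g (q x) - q x) = e (R g (q 1) - q 1) := h3.apply_eq_of_compactSpace _ _
  rw [hR, hR] at h4
  have h5 := e.injOn (h2 x) (h2 1) h4
  rw [← h5]
  abel

/-- Right translations induce translations of the torus. -/
lemma translation [CompactSpace (Torus Λ)] (q : G → Torus Λ)
    (hq : IsLocalDiffeomorph 𝓘(ℂ, 𝔤) 𝓘(ℂ, V) ω q)
    (hs : Function.Surjective q)
    (hwd : ∀ x y g : G, q x = q y → q (x * g) = q (y * g)) (g : G) :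
    ∃ c, ∀ x, q (x * g) = q x + c := by
  have : IsTopologicalGroup G := topologicalGroup_of_lieGroup 𝓘(ℂ, 𝔤) ω
  let S : Subgroup G :=
    { carrier := {g | ∃ c, ∀ x, q (x * g) = q x + c}
      one_mem' := ⟨0, fun x => by rw [mul_one, add_zero]⟩
      mul_mem' := by
        rintro a b ⟨c, hc⟩ ⟨d, hd⟩
        refine ⟨c + d, fun x => ?_⟩
        rw [← mul_assoc, hd, hc, add_assoc]
      inv_mem' := by
        rintro a ⟨c, hc⟩
        refine ⟨-c, fun x => ?_⟩
        have h1 := hc (x * a⁻¹)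
        rw [inv_mul_cancel_right] at h1
        rw [h1]
        abel }
  have hS : IsOpen (S : Set G) :=
    S.isOpen_of_mem_nhds (g := 1) (eventually_translation Λ q hq hs hwd)
  have h2 : (S : Set G) = univ := IsClopen.eq_univ ⟨S.isClosed_of_isOpen hS, hS⟩ ⟨1, S.one_mem⟩
  have h3 : g ∈ (S : Set G) := by rw [h2]; exact mem_univ g
  exact h3

/-- A connected complex Lie group with a quotient by a discrete subgroup which is a complex torus
is commutative. -/
theorem commutative_of_quotient [CompactSpace (Torus Λ)] (Γ : Subgroup G) [DiscreteTopology Γ]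
    (q : G → Torus Λ) (hq : IsLocalDiffeomorph 𝓘(ℂ, 𝔤) 𝓘(ℂ, V) ω q)
    (hs : Function.Surjective q) (hΓ : ∀ x y : G, q x = q y ↔ ∃ γ ∈ Γ, γ * x = y) (g h : G) :
    g * h = h * g := by
  have : IsTopologicalGroup G := topologicalGroup_of_lieGroup 𝓘(ℂ, 𝔤) ω
  have hwd : ∀ x y g : G, q x = q y → q (x * g) = q (y * g) := by
    intro x y g hxy
    obtain ⟨γ, hγ, h⟩ := (hΓ x y).1 hxy
    exact (hΓ _ _).2 ⟨γ, hγ, by rw [← h, mul_assoc]⟩
  have htr := translation Λ q hq hs hwd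
  have h1 : ∀ g h : G, h * g * (g * h)⁻¹ ∈ Γ := by
    intro g h
    obtain ⟨c, hc⟩ := htr g
    obtain ⟨d, hd⟩ := htr h
    have h2 : q (1 * g * h) = q (1 * h * g) := by
      rw [hd, hc, hc, hd]
      abel
    obtain ⟨γ, hγ, h3⟩ := (hΓ _ _).1 h2
    rw [one_mul, one_mul] at h3
    rw [← h3, mul_inv_cancel_right]
    exact hγ
  let F : G × G → Γ := fun p => ⟨p.2 * p.1 * (p.1 * p.2)⁻¹, h1 p.1 p.2⟩
  have hF : Continuous F := by
    apply Continuous.subtype_mk
    fun_prop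
  have h4 : F (g, h) = F (1, 1) := PreconnectedSpace.constant inferInstance hF
  have h5 : h * g * (g * h)⁻¹ = 1 * 1 * (1 * 1)⁻¹ := congrArg Subtype.val h4
  rw [mul_one, inv_one, mul_one, mul_inv_eq_one] at h5
  exact h5.symm

end Pool.Agent.Y167.Cartan
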